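import Pool.Agent.Strip051.LC.Strict

/-! # Every cell is good if the small triangles are good

`F` is an antisymmetric edge function.  Suppose that every positively oriented triangle with sides in
`[1, √3]` has flux at least `1 / 2` and that an isosceles triangle with two unit sides and a third
side in `(√3, 2]` has flux at most `1 / 2`.  Then every positively oriented triangle with sides at
least one and circumradius at most one has flux at least `1 / 2`.

Proof.  Let `p q r` be such a triangle with `|p q| > √3` and let `b` be the apex of the isosceles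
triangle with unit sides on the other side of `p q`.  The triangles `p b r` and `b q r` are again
positively oriented with sides at least one and circumradius at most one, and both have a unit side.
After at most three steps all sides are at most `√3`. -/

namespace Pool.Agent.Strip051.LC

open Pool.Agent.StripNear Pool.Agent.StripSquare Pool.Agent.Strip051.Sweep

/-- A positively oriented triangle with sides at least one and circumradius at most one. -/
structure Cel (p q r : Pt) : Prop where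
  cr0 : 0 ≤ cr p q r
  pq : 1 ≤ ds p q
  qr : 1 ≤ ds q r
  pr : 1 ≤ ds p r
  rad : ds p q * ds q r * ds p r ≤ 4 * cr p q r ^ 2

theorem Cel.of_center {p q r o : Pt} {R : ℝ} (h0 : 0 ≤ cr p q r) (h1 : 1 ≤ ds p q)
    (h2 : 1 ≤ ds q r) (h3 : 1 ≤ ds p r) (hop : ds p o = R) (hoq : ds q o = R) (hor : ds r o = R)
    (hR : R ≤ 1) : Cel p q r := by
  refine ⟨h0, h1, h2, h3, ?_⟩
  -- `a b c = 4 R k²`
  have a1 : 2 * ((q.1 - p.1) * (o.1 - p.1) + (q.2 - p.2) * (o.2 - p.2)) = ds p q := by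
    have : ds p o - ds q o = 0 := by rw [hop, hoq]; ring
    unfold ds at this ⊢
    linarith
  have a2 : 2 * ((r.1 - p.1) * (o.1 - p.1) + (r.2 - p.2) * (o.2 - p.2)) = ds p r := by
    have : ds p o - ds r o = 0 := by rw [hop, hor]; ring
    unfold ds at this ⊢
    linarith
  have e : ds p q * ds q r * ds p r = 4 * R * cr p q r ^ 2 := by
    have hR' : R = (o.1 - p.1) ^ 2 + (o.2 - p.2) ^ 2 := by rw [← hop]; rfl
    have hqr : ds q r = ds p q + ds p r -
        2 * ((q.1 - p.1) * (r.1 - p.1) + (q.2 - p.2) * (r.2 - p.2)) := by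
      unfold ds
      ring
    have hpq : ds p q = (q.1 - p.1) ^ 2 + (q.2 - p.2) ^ 2 := rfl
    have hpr : ds p r = (r.1 - p.1) ^ 2 + (r.2 - p.2) ^ 2 := rfl
    -- `k (o - p) = ½ (|q|² r^⊥ - |r|² q^⊥)`
    have b1 : 2 * cr p q r * (o.1 - p.1) = ds p q * (r.2 - p.2) - ds p r * (q.2 - p.2) := by
      rw [← a1, ← a2]
      unfold cr
      ring
    have b2 : 2 * cr p q r * (o.2 - p.2) = -(ds p q * (r.1 - p.1)) + ds p r * (q.1 - p.1) := by
      rw [← a1, ← a2]
      unfold cr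
      ring
    have b3 : 4 * R * cr p q r ^ 2 = (2 * cr p q r * (o.1 - p.1)) ^ 2 +
        (2 * cr p q r * (o.2 - p.2)) ^ 2 := by
      rw [hR']
      ring
    rw [b3, b1, b2, hqr]
    have c1 : (ds p q * (r.2 - p.2) - ds p r * (q.2 - p.2)) ^ 2 +
        (-(ds p q * (r.1 - p.1)) + ds p r * (q.1 - p.1)) ^ 2 =
        ds p q ^ 2 * ((r.1 - p.1) ^ 2 + (r.2 - p.2) ^ 2) +
        ds p r ^ 2 * ((q.1 - p.1) ^ 2 + (q.2 - p.2) ^ 2) -
        2 * ds p q * ds p r * ((q.1 - p.1) * (r.1 - p.1) + (q.2 - p.2) * (r.2 - p.2)) := by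
      ring
    rw [c1, ← hpq, ← hpr]
    ring
  rw [e]
  nlinarith [sq_nonneg (cr p q r)]

theorem Cel.rot {p q r : Pt} (h : Cel p q r) : Cel q r p := by
  obtain ⟨h0, h1, h2, h3, h4⟩ := h
  refine ⟨by rw [cr_rot]; exact h0, h2, by rw [ds_comm]; exact h3, by rw [ds_comm]; exact h1, ?_⟩
  rw [cr_rot, ds_comm r p, ds_comm q p]
  calc _ = ds p q * ds q r * ds p r := by ring
    _ ≤ _ := h4

/-- The side `p q` is at most two. -/
theorem Cel.le_four {p q r : Pt} (h : Cel p q r) : ds p q ≤ 4 := by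
  have h1 := h.rad
  have h2 : cr p q r ^ 2 ≤ ds q r * ds p r := by
    have : cr p q r ^ 2 = ds q r * ds p r - ((ds q r + ds p r - ds p q) / 2) ^ 2 := by
      unfold cr ds
      ring
    rw [this]
    linarith [sq_nonneg ((ds q r + ds p r - ds p q) / 2)]
  have h3 : 1 ≤ ds q r * ds p r := by nlinarith [h.qr, h.pr]
  nlinarith

/-- A cell with two unit sides. -/
theorem Cel.le_three {p q r : Pt} (h : Cel p q r) (h1 : ds p r = 1) (h2 : ds q r = 1) :
    ds p q ≤ 3 := by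
  have h3 := h.rad
  have e : cr p q r ^ 2 = ds q r * ds p r - ((ds q r + ds p r - ds p q) / 2) ^ 2 := by
    unfold cr ds
    ring
  rw [e, h1, h2] at h3
  have h4 := h.pq
  nlinarith

/-- The geometry of one step, in terms of `B = |w|²`, `A = |w - v|²`, `c = |v|²`, `x = v · w`,
`k = v × w`. -/
theorem step_aux {A B c x k ρ : ℝ} (hk : 0 ≤ k) (hA : 1 ≤ A) (hB : 1 ≤ B) (hc : 3 ≤ c)
    (hA' : A = B + c - 2 * x) (hxk : x ^ 2 + k ^ 2 = B * c) (hρ0 : 0 ≤ ρ)
    (hρ : ρ ^ 2 * c = 1 - c / 4) (hrad : A * B * c ≤ 4 * k ^ 2) :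
    0 ≤ B - x + 2 * ρ * k ∧ 0 ≤ k / 2 + ρ * x ∧
      B * (B + 1 - x + 2 * ρ * k) ≤ 4 * (k / 2 + ρ * x) ^ 2 := by
  have hc0 : 0 < c := by linarith
  -- `ρ ≤ 1 / (2 √3)`
  have hρ1 : 12 * ρ ^ 2 ≤ 1 := by nlinarith
  -- the unit circles through `p` and `q`
  have key : (B - x) ^ 2 ≤ (2 * ρ * k) ^ 2 := by
    have e : c * ((2 * ρ * k) ^ 2 - (B - x) ^ 2) = 4 * k ^ 2 - A * B * c := by
      have e1 : c * (2 * ρ * k) ^ 2 = 4 * k ^ 2 * (ρ ^ 2 * c) := by ring
      have e2 : c * ((2 * ρ * k) ^ 2 - (B - x) ^ 2) = c * (2 * ρ * k) ^ 2 - c * (B - x) ^ 2 := by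
        ring
      rw [e2, e1, hρ, hA']
      linear_combination (-c) * hxk
    have h : 0 ≤ c * ((2 * ρ * k) ^ 2 - (B - x) ^ 2) := by
      rw [e]
      linarith
    have := nonneg_of_mul_nonneg_right h hc0
    linarith
  have h2 : 0 ≤ 2 * ρ * k := by positivity
  obtain ⟨m1, m2⟩ := abs_le.1 (abs_le_of_sq_le_sq key h2)
  -- the angle at `p` is at least 30 degrees
  have hx3 : x ^ 2 ≤ 3 * k ^ 2 := by
    have : B * c ≤ A * B * c := by nlinarith [mul_pos (by linarith : 0 < B) hc0]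
    nlinarith
  have hρ2 : 0 ≤ 1 / 2 - Real.sqrt 3 * ρ := by
    have h3 : Real.sqrt 3 ^ 2 = 3 := Real.sq_sqrt (by norm_num)
    have : (Real.sqrt 3 * ρ) ^ 2 ≤ (1 / 2) ^ 2 := by
      rw [mul_pow, h3]
      linarith
    have := abs_le_of_sq_le_sq this (by norm_num)
    linarith [(abs_le.1 this).2]
  have hs3 : 0 < Real.sqrt 3 := Real.sqrt_pos.2 (by norm_num)
  have h3 : Real.sqrt 3 ^ 2 = 3 := Real.sq_sqrt (by norm_num)
  have hxk3 : x ^ 2 ≤ (Real.sqrt 3 * k) ^ 2 := by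
    rw [mul_pow, h3]
    exact hx3
  obtain ⟨n1, n2⟩ := abs_le.1 (abs_le_of_sq_le_sq hxk3 (by positivity))
  set s3 := Real.sqrt 3 with hs
  have hcr : 0 ≤ k / 2 + ρ * x := by
    have e1 : 0 ≤ ρ * (s3 * k + x) := mul_nonneg hρ0 (by linarith)
    have e2 : 0 ≤ k * (1 / 2 - s3 * ρ) := mul_nonneg hk hρ2
    have e3 : k / 2 + ρ * x = k * (1 / 2 - s3 * ρ) + ρ * (s3 * k + x) := by ring
    linarith
  refine ⟨by linarith, hcr, ?_⟩
  -- `|B - ξ| ≤ √3 κ`
  have w : x / 2 + 3 * (ρ * k) ≤ s3 * (k / 2 + ρ * x) := by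
    have e1 : 0 ≤ (s3 * k - x) * (1 / 2 - s3 * ρ) := mul_nonneg (by linarith) hρ2
    have e2 : (s3 * k - x) * (1 / 2 - s3 * ρ) =
        s3 * (k / 2 + ρ * x) - x / 2 - s3 ^ 2 * (ρ * k) := by ring
    rw [e2, h3] at e1
    linarith
  have t4 : 0 ≤ ρ * k := mul_nonneg hρ0 hk
  have u1 : B ≤ (x / 2 - ρ * k) + s3 * (k / 2 + ρ * x) := by
    have : 2 * ρ * k = 2 * (ρ * k) := by ring
    linarith
  have u2 : x / 2 - ρ * k ≤ B + s3 * (k / 2 + ρ * x) := by linarith
  have u3 : (B - (x / 2 - ρ * k)) ^ 2 ≤ 3 * (k / 2 + ρ * x) ^ 2 := by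
    have : |B - (x / 2 - ρ * k)| ≤ s3 * (k / 2 + ρ * x) := by
      rw [abs_le]
      constructor <;> linarith
    have := sq_le_sq' (by linarith [(abs_le.1 this).1]) (abs_le.1 this).2
    rw [mul_pow, h3] at this
    exact this
  -- `κ² + ξ² = B`
  have u4 : (k / 2 + ρ * x) ^ 2 + (x / 2 - ρ * k) ^ 2 = B := by
    have : (k / 2 + ρ * x) ^ 2 + (x / 2 - ρ * k) ^ 2 = (1 / 4 + ρ ^ 2) * (x ^ 2 + k ^ 2) := by ring
    rw [this, hxk]
    linear_combination B * hρ
  nlinarith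

/-- One step: the outer apex of a long side cuts a cell into two cells with a unit side. -/
theorem Cel.step {p q r : Pt} (h : Cel p q r) (h3 : 3 < ds p q) :
    ∃ b, ds p b = 1 ∧ ds q b = 1 ∧ 0 ≤ cr q p b ∧ Cel p b r ∧ Cel b q r := by
  have h4 := h.le_four
  obtain ⟨b, ρ, hρ, hρ2, hw1, hw2⟩ := exists_apex h3.le h4
  have hds : ds p q = (q.1 - p.1) ^ 2 + (q.2 - p.2) ^ 2 := rfl
  have hb1 : b.1 = p.1 + ((q.1 - p.1) / 2 + ρ * (q.2 - p.2)) := by linarith
  have hb2 : b.2 = p.2 + ((q.2 - p.2) / 2 - ρ * (q.1 - p.1)) := by linarith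
  have hpb : ds p b = 1 := by
    have e : ds p b = ds p q / 4 + ρ ^ 2 * ds p q := by
      rw [hds]
      unfold ds
      rw [hw1, hw2]
      ring
    rw [e]
    linarith
  have hqb : ds q b = 1 := by
    have e : ds q b = ds p q / 4 + ρ ^ 2 * ds p q := by
      rw [hds]
      unfold ds
      rw [hb1, hb2]
      ring
    rw [e]
    linarith
  have e6 : cr q p b = ρ * ds p q := by
    rw [hds]
    unfold cr
    rw [hb1, hb2]
    ring
  have hcr6 : 0 ≤ cr q p b := by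
    rw [e6]
    exact mul_nonneg hρ (by linarith)
  -- the two parts
  set x := (ds p r + ds p q - ds q r) / 2 with hx
  have hdv : (q.1 - p.1) * (r.1 - p.1) + (q.2 - p.2) * (r.2 - p.2) = x := by
    rw [hx]
    unfold ds
    ring
  have hxk : x ^ 2 + cr p q r ^ 2 = ds p r * ds p q := by
    rw [cr_sq, hx]
    ring
  have s1 := step_aux (A := ds q r) (B := ds p r) (c := ds p q) (x := x) (k := cr p q r) (ρ := ρ)
    h.cr0 h.qr h.pr h3.le (by rw [hx]; ring) hxk hρ hρ2 (by linarith [h.rad, (by ring :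
      ds q r * ds p r * ds p q = ds p q * ds q r * ds p r)])
  have s2 := step_aux (A := ds p r) (B := ds q r) (c := ds p q) (x := ds p q - x) (k := cr p q r)
    (ρ := ρ) h.cr0 h.pr h.qr h3.le (by rw [hx]; ring) (by
      have : (ds p q - x) ^ 2 + cr p q r ^ 2 = (x ^ 2 + cr p q r ^ 2) + ds p q ^ 2 -
        2 * ds p q * x := by ring
      rw [this, hxk, hx]
      ring) hρ hρ2 (by linarith [h.rad, (by ring :
      ds p r * ds q r * ds p q = ds p q * ds q r * ds p r)])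
  obtain ⟨a1, a2, a3⟩ := s1
  obtain ⟨b1, b2, b3⟩ := s2
  have hbr : ds b r = ds p r + 1 - x + 2 * ρ * cr p q r := by
    have e1 : ds b r = ds p r + ds p b - 2 * ((r.1 - p.1) * (b.1 - p.1) +
        (r.2 - p.2) * (b.2 - p.2)) := by
      unfold ds
      ring
    have e2 : (r.1 - p.1) * (b.1 - p.1) + (r.2 - p.2) * (b.2 - p.2) =
        ((q.1 - p.1) * (r.1 - p.1) + (q.2 - p.2) * (r.2 - p.2)) / 2 - ρ * cr p q r := by
      rw [hw1, hw2]
      unfold cr
      ring
    rw [e1, e2, hdv, hpb]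
    ring
  have e4 : cr p b r = cr p q r / 2 + ρ * x := by
    rw [← hdv]
    unfold cr
    rw [hb1, hb2]
    ring
  have e5 : cr b q r = cr p q r / 2 + ρ * (ds p q - x) := by
    rw [← hdv, hds]
    unfold cr
    rw [hb1, hb2]
    ring
  have hbr1 : 1 ≤ ds b r := by
    rw [hbr]
    linarith
  refine ⟨b, hpb, hqb, hcr6, ⟨by rw [e4]; exact a2, hpb.ge, hbr1, h.pr, ?_⟩,
    ⟨by rw [e5]; exact b2, by rw [ds_comm, hqb], h.qr, hbr1, ?_⟩⟩
  · rw [e4, hpb, hbr, one_mul]
    linarith [(by ring : (ds p r + 1 - x + 2 * ρ * cr p q r) * ds p r =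
      ds p r * (ds p r + 1 - x + 2 * ρ * cr p q r))]
  · rw [e5, ds_comm b q, hqb, one_mul]
    have e7 : ds b r = ds q r + 1 - (ds p q - x) + 2 * ρ * cr p q r := by
      rw [hbr, hx]
      ring
    rw [e7]
    exact b3

/-- The hypotheses of the reduction. -/
structure Two (F : Pt → Pt → ℝ) : Prop where
  anti : ∀ a b, F b a = -F a b
  tri : ∀ p q r, 0 ≤ cr p q r → 1 ≤ ds p q → 1 ≤ ds q r → 1 ≤ ds p r → ds p q ≤ 3 →
    ds q r ≤ 3 → ds p r ≤ 3 → 1 / 2 ≤ F p q + F q r + F r p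
  half : ∀ p q b, ds p b = 1 → ds q b = 1 → 3 < ds p q → ds p q ≤ 4 → 0 ≤ cr q p b →
    F q p + F p b + F b q ≤ 1 / 2

theorem Two.of_step {F : Pt → Pt → ℝ} (hF : Two F) {p q r b : Pt} (h1 : ds p b = 1)
    (h2 : ds q b = 1) (h3 : 3 < ds p q) (h4 : ds p q ≤ 4) (h5 : 0 ≤ cr q p b)
    (g1 : 1 / 2 ≤ F p b + F b r + F r p) (g2 : 1 / 2 ≤ F b q + F q r + F r b) :
    1 / 2 ≤ F p q + F q r + F r p := by
  have g3 := hF.half p q b h1 h2 h3 h4 h5
  have a1 := hF.anti b r
  have a2 := hF.anti p q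
  linarith

/-- Third step: a unit side, a side at most `√3`. -/
theorem Two.third {F : Pt → Pt → ℝ} (hF : Two F) {p q r : Pt} (h : Cel p q r)
    (h1 : (ds p r = 1 ∧ ds q r ≤ 3) ∨ (ds q r = 1 ∧ ds p r ≤ 3)) :
    1 / 2 ≤ F p q + F q r + F r p := by
  rcases le_or_gt (ds p q) 3 with c | c
  · refine hF.tri p q r h.cr0 h.pq h.qr h.pr c ?_ ?_
    · rcases h1 with ⟨a, b⟩ | ⟨a, b⟩ <;> linarith
    · rcases h1 with ⟨a, b⟩ | ⟨a, b⟩ <;> linarith
  obtain ⟨b, hpb, hqb, hb, g1, g2⟩ := h.step c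
  have hbq : ds b q = 1 := by rw [ds_comm, hqb]
  have hbr : ds b r ≤ 3 := by
    rcases h1 with ⟨a, _⟩ | ⟨a, _⟩
    · -- the triangle `b r p`
      exact g1.rot.le_three (by rw [ds_comm]; exact hpb) (by rw [ds_comm]; exact a)
    · exact (Cel.rot (Cel.rot g2)).le_three (p := r) (q := b) (r := q) (by rw [ds_comm]; exact a)
        hbq |> fun h => by rw [ds_comm]; exact h
  have k1 : 1 / 2 ≤ F p b + F b r + F r p := by
    refine hF.tri p b r g1.cr0 g1.pq g1.qr g1.pr (by rw [hpb]; norm_num) hbr ?_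
    rcases h1 with ⟨a, b⟩ | ⟨a, b⟩ <;> linarith
  have k2 : 1 / 2 ≤ F b q + F q r + F r b := by
    refine hF.tri b q r g2.cr0 g2.pq g2.qr g2.pr (by rw [hbq]; norm_num) ?_ hbr
    rcases h1 with ⟨a, b⟩ | ⟨a, b⟩ <;> linarith
  exact hF.of_step hpb hqb c h.le_four hb k1 k2

/-- Second step: a unit side. -/
theorem Two.second {F : Pt → Pt → ℝ} (hF : Two F) {p q r : Pt} (h : Cel p q r)
    (h1 : ds p r = 1 ∨ ds q r = 1) : 1 / 2 ≤ F p q + F q r + F r p := by
  rcases le_or_gt (ds p q) 3 with c | c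
  · -- the possible long side is `q r` or `p r`
    rcases h1 with a | a
    · -- the triangle `q r p`, the long side is `q r`
      have := hF.third h.rot (Or.inr ⟨by rw [ds_comm]; exact a, by rw [ds_comm]; exact c⟩)
      linarith
    · have := hF.third h.rot.rot (Or.inl ⟨by rw [ds_comm]; exact a, c⟩)
      linarith
  obtain ⟨b, hpb, hqb, hb, g1, g2⟩ := h.step c
  have hbq : ds b q = 1 := by rw [ds_comm, hqb]
  rcases h1 with a | a
  · -- `p b r` has two unit sides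
    have hbr : ds b r ≤ 3 := g1.rot.le_three (by rw [ds_comm]; exact hpb) (by rw [ds_comm]; exact a)
    have k1 : 1 / 2 ≤ F p b + F b r + F r p :=
      hF.tri p b r g1.cr0 g1.pq g1.qr g1.pr (by rw [hpb]; norm_num) hbr (by linarith)
    -- `b q r`: `b q` is a unit side, `b r` is short
    have k2 : 1 / 2 ≤ F b q + F q r + F r b := by
      have := hF.third g2.rot (Or.inl ⟨hqb, by rw [ds_comm]; exact hbr⟩)
      linarith
    exact hF.of_step hpb hqb c h.le_four hb k1 k2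
  · -- `b q r` has two unit sides
    have hbr : ds b r ≤ 3 := by
      rw [ds_comm]
      exact g2.rot.rot.le_three (by rw [ds_comm]; exact a) hbq
    have k2 : 1 / 2 ≤ F b q + F q r + F r b :=
      hF.tri b q r g2.cr0 g2.pq g2.qr g2.pr (by rw [hbq]; norm_num) (by linarith) hbr
    have k1 : 1 / 2 ≤ F p b + F b r + F r p := by
      have := hF.third g1.rot.rot (Or.inr ⟨hpb, by rw [ds_comm]; exact hbr⟩)
      linarith
    exact hF.of_step hpb hqb c h.le_four hb k1 k2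

/-- **Every cell is good.** -/
theorem Two.good' {F : Pt → Pt → ℝ} (hF : Two F) {p q r : Pt} (h : Cel p q r) :
    1 / 2 ≤ F p q + F q r + F r p := by
  have key : ∀ p q r : Pt, Cel p q r → 3 < ds p q → 1 / 2 ≤ F p q + F q r + F r p := by
    intro p q r h c
    obtain ⟨b, hpb, hqb, hb, g1, g2⟩ := h.step c
    have k1 : 1 / 2 ≤ F p b + F b r + F r p := by
      have := hF.second g1.rot.rot (Or.inr hpb)
      linarith
    have k2 : 1 / 2 ≤ F b q + F q r + F r b := by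
      have := hF.second g2.rot (Or.inl hqb)
      linarith
    exact hF.of_step hpb hqb c h.le_four hb k1 k2
  rcases le_or_gt (ds p q) 3 with a | a
  · rcases le_or_gt (ds q r) 3 with b | b
    · rcases le_or_gt (ds p r) 3 with c | c
      · exact hF.tri p q r h.cr0 h.pq h.qr h.pr a b c
      · have := key r p q h.rot.rot (by rw [ds_comm]; exact c)
        linarith
    · have := key q r p h.rot b
      linarith
  · exact key p q r h a

/-- **Every triangle with sides at least one and circumradius at most one is good.** -/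
theorem Two.good {F : Pt → Pt → ℝ} (hF : Two F) {p q r o : Pt} {R : ℝ} (h1 : 1 ≤ ds p q)
    (h2 : 1 ≤ ds q r) (h3 : 1 ≤ ds p r) (hop : ds p o = R) (hoq : ds q o = R) (hor : ds r o = R)
    (hR : R ≤ 1) (hcr : 0 ≤ cr p q r) : 1 / 2 ≤ F p q + F q r + F r p :=
  hF.good' (Cel.of_center hcr h1 h2 h3 hop hoq hor hR)

/-- All cells from the small triangles and the isosceles triangles on long edges, for a flux. -/
theorem cel_good {Q : ℝ → ℝ → ℝ → ℝ} (anti : ∀ X y z, Q (-X) z y = -Q X y z)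
    (tri : ∀ p q r : Pt, 0 ≤ cr p q r → 1 ≤ ds p q → 1 ≤ ds q r → 1 ≤ ds p r → ds p q ≤ 3 →
      ds q r ≤ 3 → ds p r ≤ 3 → 1 / 2 ≤ cr p q r / (2 * h0) + fl Q p q r)
    (half : ∀ p q b : Pt, ds p b = 1 → ds q b = 1 → 3 < ds p q → ds p q ≤ 4 → 0 ≤ cr q p b →
      cr q p b / (2 * h0) + fl Q q p b ≤ 1 / 2) {p q r : Pt} (h : Cel p q r) :
    1 / 2 ≤ cr p q r / (2 * h0) + fl Q p q r := by
  have hF : Two (FQ 0 Q) := by
    refine ⟨?_, ?_, ?_⟩
    · intro a b
      have := anti (b.1 - a.1) a.2 b.2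
      unfold FQ ed
      rw [show a.1 - b.1 = -(b.1 - a.1) by ring, this]
      ring
    · intro p q r h0 h1 h2 h3 h4 h5 h6
      rw [FQ_tri]
      exact tri p q r h0 h1 h2 h3 h4 h5 h6
    · intro p q b h1 h2 h3 h4 h5
      rw [FQ_tri]
      exact half p q b h1 h2 h3 h4 h5
  have := hF.good' h
  rwa [FQ_tri] at this

/-- The conditions of `BulkS` without the one on acute triangles. -/
theorem BulkS.of_half {Q : ℝ → ℝ → ℝ → ℝ} (anti : ∀ X y z, Q (-X) z y = -Q X y z)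
    (tri : ∀ p q r : Pt, 0 ≤ cr p q r → 1 ≤ ds p q → 1 ≤ ds q r → 1 ≤ ds p r → ds p q ≤ 3 →
      ds q r ≤ 3 → ds p r ≤ 3 → 1 / 2 ≤ cr p q r / (2 * h0) + fl Q p q r)
    (half : ∀ p q b : Pt, ds p b = 1 → ds q b = 1 → 3 < ds p q → ds p q ≤ 4 → 0 ≤ cr q p b →
      cr q p b / (2 * h0) + fl Q q p b ≤ 1 / 2) : BulkS Q :=
  ⟨anti, tri, half, fun _ _ _ _ _ h0 h1 h2 h3 _ _ _ _ h8 h9 h10 h11 =>
    cel_good anti tri half (Cel.of_center h0 (by linarith) h2 h1 h8 h9 h10 h11)⟩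

end Pool.Agent.Strip051.LC
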