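import Pool.Agent.Strip051.LC.Strict

/-! # Long edges: the average over the two apexes

For an edge `v` with `√3 < |v| ≤ 2` the flux is the average of the fluxes of the two paths of two
unit edges.  The inequality for the isosceles triangle on a long edge becomes the reversed
inequality for a unit rhombus. -/

namespace Pool.Agent.Strip051.LC

open Pool.Agent.StripNear Pool.Agent.StripSquare Pool.Agent.Strip051.Sweep

/-- The height of the apex over the edge, divided by the length of the edge. -/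
noncomputable def rr (X T : ℝ) : ℝ := √(1 / (X ^ 2 + T ^ 2) - 1 / 4)

theorem rr_nonneg (X T : ℝ) : 0 ≤ rr X T := Real.sqrt_nonneg _

theorem rr_neg (X T : ℝ) : rr (-X) T = rr X T := by
  unfold rr
  rw [neg_sq]

theorem rr_neg' (X T : ℝ) : rr X (-T) = rr X T := by
  unfold rr
  rw [neg_sq]

theorem rr_sq {X T : ℝ} (h0 : 0 < X ^ 2 + T ^ 2) (h4 : X ^ 2 + T ^ 2 ≤ 4) :
    rr X T ^ 2 * (X ^ 2 + T ^ 2) = 1 - (X ^ 2 + T ^ 2) / 4 := by
  unfold rr
  rw [Real.sq_sqrt]
  · field_simp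
  · have : 1 / 4 ≤ 1 / (X ^ 2 + T ^ 2) := one_div_le_one_div_of_le h0 h4
    linarith

/-- The average of the fluxes of the two paths of two unit edges. -/
noncomputable def Av (U : ℝ → ℝ → ℝ → ℝ) (X y z : ℝ) : ℝ :=
  (U (X / 2 - rr X (z - y) * (z - y)) y ((y + z) / 2 + rr X (z - y) * X) +
    U (X / 2 + rr X (z - y) * (z - y)) ((y + z) / 2 + rr X (z - y) * X) z +
    U (X / 2 + rr X (z - y) * (z - y)) y ((y + z) / 2 - rr X (z - y) * X) +
    U (X / 2 - rr X (z - y) * (z - y)) ((y + z) / 2 - rr X (z - y) * X) z) / 2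

theorem Av_anti {U : ℝ → ℝ → ℝ → ℝ} (hU : ∀ X y z, U (-X) z y = -U X y z) (X y z : ℝ) :
    Av U (-X) z y = -Av U X y z := by
  unfold Av
  have e : rr (-X) (y - z) = rr X (z - y) := by
    rw [rr_neg, show y - z = -(z - y) by ring, rr_neg']
  rw [e]
  set r := rr X (z - y)
  rw [show -X / 2 - r * (y - z) = -(X / 2 - r * (z - y)) by ring,
    show -X / 2 + r * (y - z) = -(X / 2 + r * (z - y)) by ring,
    show (z + y) / 2 + r * -X = (y + z) / 2 - r * X by ring,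
    show (z + y) / 2 - r * -X = (y + z) / 2 + r * X by ring]
  simp only [hU]
  ring

theorem Av_mirror {U : ℝ → ℝ → ℝ → ℝ} {H : ℝ} (hU : ∀ X y z, U X (H - y) (H - z) = -U X y z)
    (X y z : ℝ) : Av U X (H - y) (H - z) = -Av U X y z := by
  unfold Av
  have e : rr X (H - z - (H - y)) = rr X (z - y) := by
    rw [show H - z - (H - y) = -(z - y) by ring, rr_neg']
  rw [e]
  set r := rr X (z - y)
  rw [show X / 2 - r * (H - z - (H - y)) = X / 2 + r * (z - y) by ring,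
    show X / 2 + r * (H - z - (H - y)) = X / 2 - r * (z - y) by ring,
    show (H - y + (H - z)) / 2 + r * X = H - ((y + z) / 2 - r * X) by ring,
    show (H - y + (H - z)) / 2 - r * X = H - ((y + z) / 2 + r * X) by ring]
  simp only [hU]
  ring

theorem Av_odd {U : ℝ → ℝ → ℝ → ℝ} (hU : ∀ X y z, U (-X) y z = -U X y z) (X y z : ℝ) :
    Av U (-X) y z = -Av U X y z := by
  unfold Av
  rw [rr_neg]
  set r := rr X (z - y)
  rw [show -X / 2 - r * (z - y) = -(X / 2 + r * (z - y)) by ring,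
    show -X / 2 + r * (z - y) = -(X / 2 - r * (z - y)) by ring,
    show (y + z) / 2 + r * -X = (y + z) / 2 - r * X by ring,
    show (y + z) / 2 - r * -X = (y + z) / 2 + r * X by ring]
  simp only [hU]
  ring

theorem Av_shift {U : ℝ → ℝ → ℝ → ℝ} {c : ℝ} (hU : ∀ X y z, U X (y + c) (z + c) = U X y z)
    (X y z : ℝ) : Av U X (y + c) (z + c) = Av U X y z := by
  unfold Av
  rw [show z + c - (y + c) = z - y by ring]
  set r := rr X (z - y)
  rw [show (y + c + (z + c)) / 2 + r * X = (y + z) / 2 + r * X + c by ring,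
    show (y + c + (z + c)) / 2 - r * X = (y + z) / 2 - r * X + c by ring]
  simp only [hU]

/-- The displacements of the two paths are short. -/
theorem apex_abs {X T : ℝ} (h0 : 0 < X ^ 2 + T ^ 2) (h4 : X ^ 2 + T ^ 2 ≤ 4) :
    |X / 2 - rr X T * T| ≤ 1 ∧ |X / 2 + rr X T * T| ≤ 1 := by
  have h := rr_sq h0 h4
  constructor
  · rw [← sq_le_one_iff_abs_le_one]
    nlinarith [sq_nonneg (T / 2 + rr X T * X)]
  · rw [← sq_le_one_iff_abs_le_one]
    nlinarith [sq_nonneg (T / 2 - rr X T * X)]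

theorem Av_abs {U : ℝ → ℝ → ℝ → ℝ} {K : ℝ} (hU : ∀ X y z, |X| ≤ 2 → |U X y z| ≤ K) {X y z : ℝ}
    (h0 : 0 < X ^ 2 + (z - y) ^ 2) (h4 : X ^ 2 + (z - y) ^ 2 ≤ 4) : |Av U X y z| ≤ 2 * K := by
  obtain ⟨h1, h2⟩ := apex_abs h0 h4
  have h3 := hU _ y ((y + z) / 2 + rr X (z - y) * X) (h1.trans one_le_two)
  have h5 := hU _ ((y + z) / 2 + rr X (z - y) * X) z (h2.trans one_le_two)
  have h6 := hU _ y ((y + z) / 2 - rr X (z - y) * X) (h2.trans one_le_two)
  have h7 := hU _ ((y + z) / 2 - rr X (z - y) * X) z (h1.trans one_le_two)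
  unfold Av
  rw [abs_le] at *
  constructor <;> linarith

/-- The reversed inequality for the unit rhombus with a long diagonal. -/
def Rhomb (U : ℝ → ℝ → ℝ → ℝ) : Prop :=
  ∀ y X1 Y1 X2 Y2 : ℝ, X1 ^ 2 + Y1 ^ 2 = 1 → X2 ^ 2 + Y2 ^ 2 = 1 → 0 ≤ X1 * Y2 - Y1 * X2 →
    3 < (X1 + X2) ^ 2 + (Y1 + Y2) ^ 2 →
    (X1 * Y2 - Y1 * X2) / h0 + (U X1 y (y + Y1) + U X2 (y + Y1) (y + Y1 + Y2) -
      U X2 y (y + Y2) - U X1 (y + Y2) (y + Y1 + Y2)) ≤ 1

/-- The position of the apex. -/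
theorem apex_eq {p q b : Pt} (h1 : ds p b = 1) (h2 : ds q b = 1) (h3 : 0 < ds p q)
    (h4 : ds p q ≤ 4) (h5 : 0 ≤ cr q p b) :
    b.1 = (p.1 + q.1) / 2 - rr (p.1 - q.1) (p.2 - q.2) * (p.2 - q.2) ∧
      b.2 = (p.2 + q.2) / 2 + rr (p.1 - q.1) (p.2 - q.2) * (p.1 - q.1) := by
  set X := p.1 - q.1 with hX
  set T := p.2 - q.2 with hT
  have hd : ds p q = X ^ 2 + T ^ 2 := by
    unfold ds
    rw [hX, hT]
    ring
  rw [hd] at h3 h4
  have hr := rr_sq h3 h4
  have hr0 := rr_nonneg X T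
  set r := rr X T
  set u := b.1 - (p.1 + q.1) / 2 with hu
  set v := b.2 - (p.2 + q.2) / 2 with hv
  -- perpendicular
  have k1 : X * u + T * v = 0 := by
    unfold ds at h1 h2
    rw [hX, hT, hu, hv]
    linarith
  have k2 : u ^ 2 + v ^ 2 = 1 - (X ^ 2 + T ^ 2) / 4 := by
    unfold ds at h1 h2
    rw [hX, hT, hu, hv]
    linarith
  have k3 : cr q p b = X * v - T * u := by
    unfold cr
    rw [hX, hT, hu, hv]
    ring
  rw [k3] at h5
  have k4 : (X * v - T * u) ^ 2 = (r * (X ^ 2 + T ^ 2)) ^ 2 := by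
    have : (X * v - T * u) ^ 2 = (X ^ 2 + T ^ 2) * (u ^ 2 + v ^ 2) - (X * u + T * v) ^ 2 := by ring
    rw [this, k1, k2, ← hr]
    ring
  have k5 : X * v - T * u = r * (X ^ 2 + T ^ 2) := by
    have h6 : 0 ≤ r * (X ^ 2 + T ^ 2) := by positivity
    exact (sq_eq_sq₀ h5 h6).1 k4
  have h7 : X ^ 2 + T ^ 2 ≠ 0 := h3.ne'
  have k6 : u = -(r * T) := by
    have : (X ^ 2 + T ^ 2) * u = (X ^ 2 + T ^ 2) * -(r * T) := by
      linear_combination X * k1 - T * k5
    exact mul_left_cancel₀ h7 this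
  have k7 : v = r * X := by
    have : (X ^ 2 + T ^ 2) * v = (X ^ 2 + T ^ 2) * (r * X) := by
      linear_combination T * k1 + X * k5
    exact mul_left_cancel₀ h7 this
  constructor
  · linarith
  · linarith

/-- The isosceles triangle on a long edge. -/
theorem half_of_rhomb {U Q : ℝ → ℝ → ℝ → ℝ} (hU : ∀ X y z, U (-X) z y = -U X y z)
    (hR : Rhomb U) {p q b : Pt} (h1 : ds p b = 1) (h2 : ds q b = 1) (h3 : 3 < ds p q)
    (h4 : ds p q ≤ 4) (h5 : 0 ≤ cr q p b) (e1 : ed Q q p = Av U (p.1 - q.1) q.2 p.2)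
    (e2 : ed Q p b = U (b.1 - p.1) p.2 b.2) (e3 : ed Q b q = U (q.1 - b.1) b.2 q.2) :
    cr q p b / (2 * h0) + fl Q q p b ≤ 1 / 2 := by
  obtain ⟨b1, b2⟩ := apex_eq h1 h2 (by linarith) h4 h5
  have hd : ds p q = (p.1 - q.1) ^ 2 + (p.2 - q.2) ^ 2 := by
    unfold ds
    ring
  rw [hd] at h3 h4
  have hr := rr_sq (by linarith) h4
  have hr0 := rr_nonneg (p.1 - q.1) (p.2 - q.2)
  have hp := h0_pos
  unfold fl
  rw [e1, e2, e3]
  unfold Av
  set X := p.1 - q.1 with hX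
  set T := p.2 - q.2 with hT
  set r := rr X T
  -- the rhombus
  have key := hR q.2 (X / 2 + r * T) (T / 2 - r * X) (X / 2 - r * T) (T / 2 + r * X)
    (by linear_combination hr) (by linear_combination hr)
    (by
      have : (X / 2 + r * T) * (T / 2 + r * X) - (T / 2 - r * X) * (X / 2 - r * T) =
          r * (X ^ 2 + T ^ 2) := by ring
      rw [this]
      have : 0 ≤ X ^ 2 + T ^ 2 := by positivity
      positivity)
    (by
      have : (X / 2 + r * T + (X / 2 - r * T)) ^ 2 + (T / 2 - r * X + (T / 2 + r * X)) ^ 2 =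
          X ^ 2 + T ^ 2 := by ring
      rw [this]
      exact h3)
  have c1 : (X / 2 + r * T) * (T / 2 + r * X) - (T / 2 - r * X) * (X / 2 - r * T) = cr q p b := by
    unfold cr
    rw [b1, b2, hX, hT]
    ring
  rw [c1] at key
  have m1 : q.2 + (T / 2 - r * X) = (q.2 + p.2) / 2 - r * X := by
    rw [hT]
    ring
  have m2 : q.2 + (T / 2 + r * X) = (q.2 + p.2) / 2 + r * X := by
    rw [hT]
    ring
  have m3 : q.2 + (T / 2 - r * X) + (T / 2 + r * X) = p.2 := by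
    rw [hT]
    ring
  rw [m3, m1, m2] at key
  have n1 : U (b.1 - p.1) p.2 b.2 = -U (X / 2 + r * T) ((q.2 + p.2) / 2 + r * X) p.2 := by
    rw [← hU]
    congr 1
    · rw [b1, hX]
      ring
    · rw [b2]
      ring
  have n2 : U (q.1 - b.1) b.2 q.2 = -U (X / 2 - r * T) q.2 ((q.2 + p.2) / 2 + r * X) := by
    rw [← hU]
    congr 1
    · rw [b1, hX]
      ring
    · rw [b2]
      ring
  rw [n1, n2]
  have e4 : cr q p b / (2 * h0) = cr q p b / h0 / 2 := by
    field_simp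
  rw [e4]
  linarith

end Pool.Agent.Strip051.LC
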