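import Pool.Agent.Strip051.LC.Edge

/-! # Corner triangles

If, at fixed heights, the edge function is affine in the horizontal distance between consecutive
nodes, then it is enough to check the triangle inequality for the triangles two sides of which are
at nodes. -/

namespace Pool.Agent.Strip051.LC

open Pool.Agent.StripNear Pool.Agent.Strip051.Sweep

/-- Two coordinates with a given sum: slide until one of them is at an end. -/
theorem slide {a b c d x y α β : ℝ} (hx1 : a ≤ x) (hx2 : x ≤ b) (hy1 : c ≤ y) (hy2 : y ≤ d) :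
    ∃ u v : ℝ, u + v = x + y ∧ a ≤ u ∧ u ≤ b ∧ c ≤ v ∧ v ≤ d ∧ (u = a ∨ u = b ∨ v = c ∨ v = d) ∧
      α * u + β * v ≤ α * x + β * y := by
  rcases le_total 0 (α - β) with h | h
  · -- decrease `x`
    rcases le_total (x - a) (d - y) with h1 | h1
    · refine ⟨a, y + (x - a), by ring, le_rfl, by linarith, by linarith, by linarith, Or.inl rfl, ?_⟩
      nlinarith [mul_nonneg h (sub_nonneg.2 hx1)]
    · refine ⟨x - (d - y), d, by ring, by linarith, by linarith, by linarith, le_rfl,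
        Or.inr (Or.inr (Or.inr rfl)), ?_⟩
      nlinarith [mul_nonneg h (sub_nonneg.2 hy2)]
  · rcases le_total (b - x) (y - c) with h1 | h1
    · refine ⟨b, y - (b - x), by ring, by linarith, le_rfl, by linarith, by linarith,
        Or.inr (Or.inl rfl), ?_⟩
      nlinarith [mul_nonneg (neg_nonneg.2 h) (sub_nonneg.2 hx2)]
    · refine ⟨x + (y - c), c, by ring, by linarith, by linarith, le_rfl, by linarith,
        Or.inr (Or.inr (Or.inl rfl)), ?_⟩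
      nlinarith [mul_nonneg (neg_nonneg.2 h) (sub_nonneg.2 hy1)]

/-- An affine function on a polygon `{x₁ + x₂ + x₃ = 0} ∩ box` is minimal at a corner. -/
theorem three {a1 b1 a2 b2 a3 b3 x1 x2 x3 α1 α2 α3 c : ℝ} (h1 : a1 ≤ x1) (h1' : x1 ≤ b1)
    (h2 : a2 ≤ x2) (h2' : x2 ≤ b2) (h3 : a3 ≤ x3) (h3' : x3 ≤ b3) (h0 : x1 + x2 + x3 = 0)
    (H : ∀ u1 u2 u3 : ℝ, a1 ≤ u1 → u1 ≤ b1 → a2 ≤ u2 → u2 ≤ b2 → a3 ≤ u3 → u3 ≤ b3 →
      u1 + u2 + u3 = 0 →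
      (((u1 = a1 ∨ u1 = b1) ∧ (u2 = a2 ∨ u2 = b2)) ∨ ((u2 = a2 ∨ u2 = b2) ∧ (u3 = a3 ∨ u3 = b3)) ∨
        ((u3 = a3 ∨ u3 = b3) ∧ (u1 = a1 ∨ u1 = b1))) →
      c ≤ α1 * u1 + α2 * u2 + α3 * u3) :
    c ≤ α1 * x1 + α2 * x2 + α3 * x3 := by
  obtain ⟨u2, u3, e, k1, k2, k3, k4, k5, k6⟩ := slide (α := α2) (β := α3) h2 h2' h3 h3'
  have key : c ≤ α1 * x1 + α2 * u2 + α3 * u3 := by
    by_cases h : u2 = a2 ∨ u2 = b2
    · obtain ⟨v1, v3, f, l1, l2, l3, l4, l5, l6⟩ := slide (α := α1) (β := α3) h1 h1' k3 k4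
      have := H v1 u2 v3 l1 l2 k1 k2 l3 l4 (by linarith) (by tauto)
      linarith
    · have h' : u3 = a3 ∨ u3 = b3 := by tauto
      obtain ⟨v1, v2, f, l1, l2, l3, l4, l5, l6⟩ := slide (α := α1) (β := α2) h1 h1' k1 k2
      have := H v1 v2 u3 l1 l2 l3 l4 k3 k4 (by linarith) (by tauto)
      linarith
  linarith

/-- `g` is piecewise affine in the horizontal distance, with the nodes `N`, as long as the length
of the edge is between one and `√3`. -/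
def Pieces (g : ℝ → ℝ → ℝ → ℝ) (N : ℝ → ℝ → ℝ → Prop) : Prop :=
  ∀ y y' x : ℝ, 1 ≤ x ^ 2 + (y' - y) ^ 2 → x ^ 2 + (y' - y) ^ 2 ≤ 3 →
    ∃ a b : ℝ, a ≤ x ∧ x ≤ b ∧ N y y' a ∧ N y y' b ∧
      (∀ u, a ≤ u → u ≤ b → 1 ≤ u ^ 2 + (y' - y) ^ 2 ∧ u ^ 2 + (y' - y) ^ 2 ≤ 3) ∧
      ∃ α β : ℝ, ∀ u, a ≤ u → u ≤ b → g y y' u = α * u + β

/-- A triangle with sides in `[1, √3]` is not degenerate. -/
theorem cr_ne_zero {A B C k : ℝ} (hA : 1 ≤ A) (hB : 1 ≤ B) (hC : 1 ≤ C) (hA' : A ≤ 3) (hB' : B ≤ 3)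
    (hC' : C ≤ 3) (hk : k ^ 2 = A * B - ((A + B - C) / 2) ^ 2) : k ≠ 0 := by
  rintro rfl
  have h1 : 0 ≤ (A - 1) * (3 - A) := mul_nonneg (by linarith) (by linarith)
  have h2 : 0 ≤ (B - 1) * (3 - B) := mul_nonneg (by linarith) (by linarith)
  have h3 : 0 ≤ (C - 1) * (3 - C) := mul_nonneg (by linarith) (by linarith)
  have h4 : 0 ≤ (A - 1) * (B - 1) := mul_nonneg (by linarith) (by linarith)
  have h5 : 0 ≤ (B - 1) * (C - 1) := mul_nonneg (by linarith) (by linarith)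
  have h6 : 0 ≤ (A - 1) * (C - 1) := mul_nonneg (by linarith) (by linarith)
  nlinarith

/-- **Corner lemma.** -/
theorem tri_of_corners {g : ℝ → ℝ → ℝ → ℝ} {N : ℝ → ℝ → ℝ → Prop} (hP : Pieces g N)
    (hc : ∀ p q r : Pt, 0 ≤ cr p q r → 1 ≤ ds p q → 1 ≤ ds q r → 1 ≤ ds p r → ds p q ≤ 3 →
      ds q r ≤ 3 → ds p r ≤ 3 → N p.2 q.2 (q.1 - p.1) → N q.2 r.2 (r.1 - q.1) →
      1 / 2 ≤ g p.2 q.2 (q.1 - p.1) + g q.2 r.2 (r.1 - q.1) + g r.2 p.2 (p.1 - r.1)) :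
    ∀ p q r : Pt, 0 ≤ cr p q r → 1 ≤ ds p q → 1 ≤ ds q r → 1 ≤ ds p r → ds p q ≤ 3 →
      ds q r ≤ 3 → ds p r ≤ 3 →
      1 / 2 ≤ g p.2 q.2 (q.1 - p.1) + g q.2 r.2 (r.1 - q.1) + g r.2 p.2 (p.1 - r.1) := by
  rintro ⟨p1, y1⟩ ⟨q1, y2⟩ ⟨r1, y3⟩ h0 h1 h2 h3 h1' h2' h3'
  unfold ds at h1 h2 h3 h1' h2' h3'
  unfold cr at h0
  simp only at h0 h1 h2 h3 h1' h2' h3' ⊢
  obtain ⟨a1, b1, ha1, hb1, na1, nb1, c1, α1, β1, e1⟩ := hP y1 y2 (q1 - p1) h1 h1'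
  obtain ⟨a2, b2, ha2, hb2, na2, nb2, c2, α2, β2, e2⟩ := hP y2 y3 (r1 - q1) h2 h2'
  obtain ⟨a3, b3, ha3, hb3, na3, nb3, c3, α3, β3, e3⟩ := hP y3 y1 (p1 - r1)
    (by linarith [h3, (by ring : (p1 - r1) ^ 2 + (y1 - y3) ^ 2 = (r1 - p1) ^ 2 + (y3 - y1) ^ 2)])
    (by linarith [h3', (by ring : (p1 - r1) ^ 2 + (y1 - y3) ^ 2 = (r1 - p1) ^ 2 + (y3 - y1) ^ 2)])
  rw [e1 _ ha1 hb1, e2 _ ha2 hb2, e3 _ ha3 hb3]
  -- the orientation is the same on the whole polygon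
  have orient : ∀ u1 u2 u3 : ℝ, a1 ≤ u1 → u1 ≤ b1 → a2 ≤ u2 → u2 ≤ b2 → a3 ≤ u3 → u3 ≤ b3 →
      u1 + u2 + u3 = 0 → 0 ≤ u1 * (y3 - y2) - (y2 - y1) * u2 := by
    intro u1 u2 u3 k1 k1' k2 k2' k3 k3' k0
    by_contra hneg
    push Not at hneg
    set x1 := q1 - p1 with hx1
    set x2 := r1 - q1 with hx2
    have hx0 : 0 ≤ x1 * (y3 - y2) - (y2 - y1) * x2 := by
      have : (q1 - p1) * (y3 - y1) - (y2 - y1) * (r1 - p1) =
          x1 * (y3 - y2) - (y2 - y1) * x2 := by rw [hx1, hx2]; ring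
      linarith
    set X := x1 * (y3 - y2) - (y2 - y1) * x2 with hX
    set U := u1 * (y3 - y2) - (y2 - y1) * u2 with hU
    have hXU : 0 < X - U := by linarith
    obtain ⟨s, hs0, hs1, hs⟩ : ∃ s : ℝ, 0 ≤ s ∧ s ≤ 1 ∧ (1 - s) * X + s * U = 0 := by
      refine ⟨X / (X - U), by positivity, ?_, ?_⟩
      · rw [div_le_one hXU]
        linarith
      · field_simp
        ring
    have conv : ∀ {a b x u : ℝ}, a ≤ x → x ≤ b → a ≤ u → u ≤ b →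
        a ≤ (1 - s) * x + s * u ∧ (1 - s) * x + s * u ≤ b := by
      intro a b x u w1 w2 w3 w4
      constructor
      · nlinarith [mul_nonneg (sub_nonneg.2 hs1) (sub_nonneg.2 w1), mul_nonneg hs0 (sub_nonneg.2 w3)]
      · nlinarith [mul_nonneg (sub_nonneg.2 hs1) (sub_nonneg.2 w2), mul_nonneg hs0 (sub_nonneg.2 w4)]
    obtain ⟨d1, d1'⟩ := conv ha1 hb1 k1 k1'
    obtain ⟨d2, d2'⟩ := conv ha2 hb2 k2 k2'
    obtain ⟨d3, d3'⟩ := conv ha3 hb3 k3 k3'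
    obtain ⟨f1, f1'⟩ := c1 _ d1 d1'
    obtain ⟨f2, f2'⟩ := c2 _ d2 d2'
    obtain ⟨f3, f3'⟩ := c3 _ d3 d3'
    set v1 := (1 - s) * x1 + s * u1 with hv1
    set v2 := (1 - s) * x2 + s * u2 with hv2
    set v3 := (1 - s) * (p1 - r1) + s * u3 with hv3
    have hv : v3 = -(v1 + v2) := by
      rw [hv1, hv2, hv3, hx1, hx2]
      have : u3 = -(u1 + u2) := by linarith
      rw [this]
      ring
    refine cr_ne_zero f3 f1 f2 f3' f1' f2' (k := v1 * (y3 - y2) - (y2 - y1) * v2) ?_ ?_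
    · rw [hv]
      ring
    · rw [hv1, hv2]
      rw [hX, hU] at hs
      linear_combination hs
  have main := three (α1 := α1) (α2 := α2) (α3 := α3) (c := 1 / 2 - β1 - β2 - β3) ha1 hb1 ha2 hb2
    ha3 hb3 (by ring) ?_
  · linarith
  intro u1 u2 u3 k1 k1' k2 k2' k3 k3' k0 kk
  have o := orient u1 u2 u3 k1 k1' k2 k2' k3 k3' k0
  obtain ⟨f1, f1'⟩ := c1 _ k1 k1'
  obtain ⟨f2, f2'⟩ := c2 _ k2 k2'
  obtain ⟨f3, f3'⟩ := c3 _ k3 k3'
  have g1 := e1 _ k1 k1'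
  have g2 := e2 _ k2 k2'
  have g3 := e3 _ k3 k3'
  have hu3 : u3 = -(u1 + u2) := by linarith
  have goal1 : N y1 y2 u1 → N y2 y3 u2 → 1 / 2 ≤ g y1 y2 u1 + g y2 y3 u2 + g y3 y1 u3 := by
    intro n1 n2
    have := hc (0, y1) (u1, y2) (u1 + u2, y3)
    unfold cr ds at this
    simp only [sub_zero, add_sub_cancel_left, zero_sub] at this
    rw [hu3]
    refine this ?_ f1 f2 ?_ f1' f2' ?_ n1 n2
    · linarith [(by ring : u1 * (y3 - y1) - (y2 - y1) * (u1 + u2) =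
        u1 * (y3 - y2) - (y2 - y1) * u2)]
    · rw [hu3] at f3
      linarith [(by ring : (-(u1 + u2)) ^ 2 + (y1 - y3) ^ 2 = (u1 + u2) ^ 2 + (y3 - y1) ^ 2)]
    · rw [hu3] at f3'
      linarith [(by ring : (-(u1 + u2)) ^ 2 + (y1 - y3) ^ 2 = (u1 + u2) ^ 2 + (y3 - y1) ^ 2)]
  have goal2 : N y2 y3 u2 → N y3 y1 u3 → 1 / 2 ≤ g y1 y2 u1 + g y2 y3 u2 + g y3 y1 u3 := by
    intro n1 n2
    have := hc (0, y2) (u2, y3) (u2 + u3, y1)
    unfold cr ds at this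
    simp only [sub_zero, add_sub_cancel_left, zero_sub] at this
    have hu1 : u1 = -(u2 + u3) := by linarith
    have h := this ?_ f2 f3 ?_ f2' f3' ?_ n1 n2
    · rw [← hu1] at h
      linarith
    · rw [hu1] at o
      linarith [(by ring : u2 * (y1 - y2) - (y3 - y2) * (u2 + u3) =
        -(u2 + u3) * (y3 - y2) - (y2 - y1) * u2)]
    · rw [hu1] at f1
      linarith [(by ring : (-(u2 + u3)) ^ 2 + (y2 - y1) ^ 2 = (u2 + u3) ^ 2 + (y1 - y2) ^ 2)]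
    · rw [hu1] at f1'
      linarith [(by ring : (-(u2 + u3)) ^ 2 + (y2 - y1) ^ 2 = (u2 + u3) ^ 2 + (y1 - y2) ^ 2)]
  have goal3 : N y3 y1 u3 → N y1 y2 u1 → 1 / 2 ≤ g y1 y2 u1 + g y2 y3 u2 + g y3 y1 u3 := by
    intro n1 n2
    have := hc (0, y3) (u3, y1) (u3 + u1, y2)
    unfold cr ds at this
    simp only [sub_zero, add_sub_cancel_left, zero_sub] at this
    have hu2 : u2 = -(u3 + u1) := by linarith
    have h := this ?_ f3 f1 ?_ f3' f1' ?_ n1 n2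
    · rw [← hu2] at h
      linarith
    · rw [hu2] at o
      linarith [(by ring : u3 * (y2 - y3) - (y1 - y3) * (u3 + u1) =
        u1 * (y3 - y2) - (y2 - y1) * -(u3 + u1))]
    · rw [hu2] at f2
      linarith [(by ring : (-(u3 + u1)) ^ 2 + (y3 - y2) ^ 2 = (u3 + u1) ^ 2 + (y2 - y3) ^ 2)]
    · rw [hu2] at f2'
      linarith [(by ring : (-(u3 + u1)) ^ 2 + (y3 - y2) ^ 2 = (u3 + u1) ^ 2 + (y2 - y3) ^ 2)]
  have fin : 1 / 2 ≤ g y1 y2 u1 + g y2 y3 u2 + g y3 y1 u3 := by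
    rcases kk with ⟨m1, m2⟩ | ⟨m1, m2⟩ | ⟨m1, m2⟩
    · refine goal1 ?_ ?_
      · rcases m1 with rfl | rfl
        · exact na1
        · exact nb1
      · rcases m2 with rfl | rfl
        · exact na2
        · exact nb2
    · refine goal2 ?_ ?_
      · rcases m1 with rfl | rfl
        · exact na2
        · exact nb2
      · rcases m2 with rfl | rfl
        · exact na3
        · exact nb3
    · refine goal3 ?_ ?_
      · rcases m1 with rfl | rfl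
        · exact na3
        · exact nb3
      · rcases m2 with rfl | rfl
        · exact na1
        · exact nb1
  linarith

/-- The flux `Q` is piecewise affine in the horizontal displacement, with the nodes `N`, as long as
the length of the edge is between one and `√3`. -/
def QPieces (Q : ℝ → ℝ → ℝ → ℝ) (N : ℝ → ℝ → ℝ → Prop) : Prop :=
  ∀ X y z : ℝ, 1 ≤ X ^ 2 + (z - y) ^ 2 → X ^ 2 + (z - y) ^ 2 ≤ 3 →
    ∃ a b : ℝ, a ≤ X ∧ X ≤ b ∧ N a y z ∧ N b y z ∧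
      (∀ u, a ≤ u → u ≤ b → 1 ≤ u ^ 2 + (z - y) ^ 2 ∧ u ^ 2 + (z - y) ^ 2 ≤ 3) ∧
      ∃ α β : ℝ, ∀ u, a ≤ u → u ≤ b → Q u y z = α * u + β

/-- **Corner lemma**, the form used for the field `tri` of `Bulk`. -/
theorem bulk_tri_of_corners {Q : ℝ → ℝ → ℝ → ℝ} {N : ℝ → ℝ → ℝ → Prop} (hP : QPieces Q N)
    (hc : ∀ p q r : Pt, 0 ≤ cr p q r → 1 ≤ ds p q → 1 ≤ ds q r → 1 ≤ ds p r → ds p q ≤ 3 →
      ds q r ≤ 3 → ds p r ≤ 3 → N (q.1 - p.1) p.2 q.2 → N (r.1 - q.1) q.2 r.2 →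
      1 / 2 ≤ cr p q r / (2 * h0) + fl Q p q r) :
    ∀ p q r : Pt, 0 ≤ cr p q r → 1 ≤ ds p q → 1 ≤ ds q r → 1 ≤ ds p r → ds p q ≤ 3 →
      ds q r ≤ 3 → ds p r ≤ 3 → 1 / 2 ≤ cr p q r / (2 * h0) + fl Q p q r := by
  have key : ∀ p q r : Pt, cr p q r / (2 * h0) + fl Q p q r =
      (-((q.1 - p.1) * (p.2 + q.2)) / (2 * h0) + Q (q.1 - p.1) p.2 q.2) +
      (-((r.1 - q.1) * (q.2 + r.2)) / (2 * h0) + Q (r.1 - q.1) q.2 r.2) +
      (-((p.1 - r.1) * (r.2 + p.2)) / (2 * h0) + Q (p.1 - r.1) r.2 p.2) := by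
    intro p q r
    unfold fl ed cr
    ring
  have h := tri_of_corners (g := fun y z X => -(X * (y + z)) / (2 * h0) + Q X y z)
    (N := fun y z X => N X y z) ?_ ?_
  · intro p q r h0' h1 h2 h3 h4 h5 h6
    rw [key]
    exact h p q r h0' h1 h2 h3 h4 h5 h6
  · intro y z X h1 h2
    obtain ⟨a, b, h3, h4, h5, h6, h7, α, β, h8⟩ := hP X y z h1 h2
    refine ⟨a, b, h3, h4, h5, h6, h7, α - (y + z) / (2 * h0), β, fun u k1 k2 => ?_⟩
    simp only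
    rw [h8 u k1 k2]
    ring
  · intro p q r h0' h1 h2 h3 h4 h5 h6 n1 n2
    have := hc p q r h0' h1 h2 h3 h4 h5 h6 n1 n2
    rw [key] at this
    exact this

/-- A triangle with two sides at given heights is bounded below by the corner triangles: a version
for a flux which is the sum of a flux `Q` and a multiple of the product of the area part. -/
theorem QPieces.add {Q R : ℝ → ℝ → ℝ → ℝ} {N : ℝ → ℝ → ℝ → Prop} (hQ : QPieces Q N)
    (hR : ∀ y z : ℝ, ∃ α β : ℝ, ∀ u, R u y z = α * u + β) :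
    QPieces (fun X y z => Q X y z + R X y z) N := by
  intro X y z h1 h2
  obtain ⟨a, b, h3, h4, h5, h6, h7, α, β, h8⟩ := hQ X y z h1 h2
  obtain ⟨γ, δ, h9⟩ := hR y z
  refine ⟨a, b, h3, h4, h5, h6, h7, α + γ, β + δ, fun u k1 k2 => ?_⟩
  simp only
  rw [h8 u k1 k2, h9 u]
  ring

end Pool.Agent.Strip051.LC
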