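import Pool.Agent.Strip051.LC.Reduce
import Pool.Agent.StripNear.Density

/-! # Certificates given by a flux, and the density bound

The flux `Q X y z` of an edge depends on the horizontal displacement `X` and on the heights `y`, `z`
of its ends.  `Bulk Q` collects the inequalities for triangles, `Floor w Q` the inequality at the
floor.  Together they bound the density. -/

namespace Pool.Agent.Strip051.LC

open Pool.Agent.StripNear Pool.Agent.Strip051.Sweep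

/-- The flux of the edge from `p` to `q`. -/
def ed (Q : ℝ → ℝ → ℝ → ℝ) (p q : Pt) : ℝ := Q (q.1 - p.1) p.2 q.2

/-- The flux around a triangle. -/
def fl (Q : ℝ → ℝ → ℝ → ℝ) (p q r : Pt) : ℝ := ed Q p q + ed Q q r + ed Q r p

/-- The edge function: the area part and the flux. -/
noncomputable def FQ (H : ℝ) (Q : ℝ → ℝ → ℝ → ℝ) (p q : Pt) : ℝ :=
  -((q.1 - p.1) * (p.2 + q.2 - H)) / (2 * h0) + ed Q p q

theorem FQ_tri (H : ℝ) (Q : ℝ → ℝ → ℝ → ℝ) (p q r : Pt) :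
    FQ H Q p q + FQ H Q q r + FQ H Q r p = cr p q r / (2 * h0) + fl Q p q r := by
  unfold FQ fl cr
  ring

/-- The inequalities for triangles. -/
structure Bulk (Q : ℝ → ℝ → ℝ → ℝ) : Prop where
  anti : ∀ X y z, Q (-X) z y = -Q X y z
  tri : ∀ p q r, 0 ≤ cr p q r → 1 ≤ ds p q → 1 ≤ ds q r → 1 ≤ ds p r → ds p q ≤ 3 →
    ds q r ≤ 3 → ds p r ≤ 3 → 1 / 2 ≤ cr p q r / (2 * h0) + fl Q p q r
  half : ∀ p q b, ds p b = 1 → ds q b = 1 → 3 ≤ ds p q → ds p q ≤ 4 → 0 ≤ cr q p b →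
    cr q p b / (2 * h0) + fl Q q p b ≤ 1 / 2
  acute : ∀ p q r, 0 ≤ cr p q r → 1 ≤ ds p r → 1 ≤ ds q r → 3 ≤ ds p q → ds p q ≤ 4 →
    ds p r ≤ ds p q → ds q r ≤ ds p q → ds p q ≤ ds p r + ds q r →
    1 / 2 ≤ cr p q r / (2 * h0) + fl Q p q r

/-- The inequality at the floor, the strip has height `H`. -/
structure Floor (H w : ℝ) (Q : ℝ → ℝ → ℝ → ℝ) : Prop where
  mirror : ∀ X y z, Q X (H - y) (H - z) = -Q X y z
  wall : ∀ (p q : Pt) (m : ℝ), p.1 ≤ q.1 → 0 ≤ p.2 → 0 ≤ q.2 → 1 ≤ ds p q →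
    (p.1 - m) ^ 2 + p.2 ^ 2 = (q.1 - m) ^ 2 + q.2 ^ 2 → (p.1 - m) ^ 2 + p.2 ^ 2 ≤ 1 →
    1 / 2 ≤ (q.1 - p.1) * (w + (p.2 + q.2 - H) / (2 * h0)) - ed Q p q

theorem Bulk.small {Q : ℝ → ℝ → ℝ → ℝ} (hQ : Bulk Q) (H : ℝ) : Small (FQ H Q) := by
  refine ⟨?_, ?_, ?_, ?_⟩
  · intro a b
    have := hQ.anti (b.1 - a.1) a.2 b.2
    unfold FQ ed
    rw [show a.1 - b.1 = -(b.1 - a.1) by ring, this]
    ring
  · intro p q r h0 h1 h2 h3 h4 h5 h6
    rw [FQ_tri]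
    exact hQ.tri p q r h0 h1 h2 h3 h4 h5 h6
  · intro p q b h1 h2 h3 h4 h5
    rw [FQ_tri]
    exact hQ.half p q b h1 h2 h3 h4 h5
  · intro p q r h0 h1 h2 h3 h4 h5 h6 h7
    rw [FQ_tri]
    exact hQ.acute p q r h0 h1 h2 h3 h4 h5 h6 h7

theorem sym_of {H w : ℝ} {Q : ℝ → ℝ → ℝ → ℝ} (hQ : Bulk Q) (hw : Floor H w Q) :
    Sym H w (FQ H Q) := by
  have hs := hQ.small H
  refine ⟨hs.anti, ?_, ?_, ?_⟩
  · intro a b
    have h1 := hQ.anti (b.1 - a.1) a.2 b.2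
    have h2 := hw.mirror (b.1 - a.1) a.2 b.2
    unfold FQ ed mir
    simp only
    rw [h2, show a.1 - b.1 = -(b.1 - a.1) by ring, h1]
    ring
  · intro p q r o R h0 h1 h2 h3 h4 h5 h6 h7
    exact hs.good h1 h2 h3 h4 h5 h6 h7 h0
  · intro p q m h1 h2 h3 h4 h5 h6
    have h7 := hw.wall p q m h1 h2 h3 h4 h5 h6
    have h8 := hs.anti p q
    rw [h8]
    unfold FQ
    have h9 : w * (q.1 - p.1) + -(-((q.1 - p.1) * (p.2 + q.2 - H)) / (2 * h0) + ed Q p q) =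
        (q.1 - p.1) * (w + (p.2 + q.2 - H) / (2 * h0)) - ed Q p q := by ring
    rw [h9]
    exact h7

/-- The count. -/
theorem count_of {H w K : ℝ} (hH : 0 ≤ H) {Q : ℝ → ℝ → ℝ → ℝ} (hQ : Bulk Q) (hw : Floor H w Q)
    (hK : ∀ X y z : ℝ, |X| ≤ 2 → 0 ≤ y → y ≤ H → 0 ≤ z → z ≤ H → |Q X y z| ≤ K) :
    ∃ C : ℝ, ∀ L : ℝ, 0 ≤ L → ∀ X : Finset Pt, UnitSep X → (∀ p ∈ X, 0 ≤ p.1 ∧ p.1 ≤ L) →
      InStrip H X → (X.card : ℝ) ≤ 2 * w * L + C := by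
  have hh := h0_pos
  have hK0 : 0 ≤ K := (abs_nonneg _).trans (hK 0 0 0 (by simp) le_rfl hH le_rfl hH)
  refine (sym_of hQ hw).count hH (K := H / h0 + K) ?_ (by positivity)
  intro a b hab ha0 haH hb0 hbH
  unfold FQ
  refine (abs_add_le _ _).trans ?_
  have h1 : |-((b.1 - a.1) * (a.2 + b.2 - H)) / (2 * h0)| ≤ H / h0 := by
    have e1 : |a.2 + b.2 - H| ≤ H := by
      rw [abs_le]
      constructor <;> linarith
    rw [abs_div, abs_neg, abs_mul, abs_of_pos (by linarith : 0 < 2 * h0),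
      div_le_div_iff₀ (by linarith) hh, abs_sub_comm]
    have e2 : |a.1 - b.1| * |a.2 + b.2 - H| ≤ 2 * H :=
      mul_le_mul hab e1 (abs_nonneg _) (by norm_num)
    calc |a.1 - b.1| * |a.2 + b.2 - H| * h0 ≤ 2 * H * h0 := mul_le_mul_of_nonneg_right e2 hh.le
      _ = H * (2 * h0) := by ring
  have h2 : |ed Q a b| ≤ K := by
    unfold ed
    exact hK _ _ _ (by rw [abs_sub_comm]; exact hab) ha0 haH hb0 hbH
  linarith

/-- The density bound: a certificate for the strip of width `W` with `w = H / (2 h0) + 1/2 - δ`. -/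
theorem density_of {W δ K : ℝ} (hW : 2 ≤ W) {Q : ℝ → ℝ → ℝ → ℝ} (hQ : Bulk Q)
    (hw : Floor ((W - 2) / 2) ((W - 2) / 2 / (2 * h0) + 1 / 2 - δ) Q)
    (hK : ∀ X y z : ℝ, |X| ≤ 2 → 0 ≤ y → y ≤ (W - 2) / 2 → 0 ≤ z → z ≤ (W - 2) / 2 →
      |Q X y z| ≤ K) {C : Set E2} (hC : IsStripPacking W C) {O : E2} {d : ℝ}
    (hd : HasDensity W C O d) :
    d ≤ Real.pi / (2 * W) * (1 + (W - 2) / Real.sqrt 3 - 2 * δ) := by
  obtain ⟨C0, h⟩ := count_of (by linarith) hQ hw hK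
  have h1 := density_le hW h hC hd
  have h3 : 0 < Real.sqrt 3 := Real.sqrt_pos.2 (by norm_num)
  have e1 : 2 * ((W - 2) / 2 / (2 * h0) + 1 / 2 - δ) = 1 + (W - 2) / Real.sqrt 3 - 2 * δ := by
    unfold h0
    field_simp
    ring
  rw [e1] at h1
  calc d ≤ _ := h1
    _ = _ := by ring

end Pool.Agent.Strip051.LC
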