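import Pool.Agent.Strip051.LC.Nodes

/-! # The kernel from its values on node curves

`ker nodes v B X T` interpolates the values `v T i` given on the nodes with tag `i`; it has the
properties `odd`, `even`, `bdd`, `pieces` which are required of the kernel of a certificate. -/

namespace Pool.Agent.Strip051.LC

open Pool.Agent.StripNear Pool.Agent.Strip051.Sweep

variable {ι : Type*}

/-- The kernel: interpolation between the node curves, `B` beyond the annulus. -/
noncomputable def ker (nodes : ℝ → List (ℝ × ι)) (v : ℝ → ι → ℝ) (B : ℝ → ℝ → ℝ) (X T : ℝ) : ℝ :=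
  itpO (v |T|) (fun u => B u |T|) |T| (nodes |T|) X

variable {nodes : ℝ → List (ℝ × ι)} {v : ℝ → ι → ℝ} {B : ℝ → ℝ → ℝ}

theorem ker_odd (hN : IsNodes nodes) (hB : ∀ T, B 0 T = 0) (X T : ℝ) :
    ker nodes v B (-X) T = -ker nodes v B X T :=
  itpO_odd (b := fun u => B u |T|) hN (hB _) (abs_nonneg T) X

theorem ker_even (X T : ℝ) : ker nodes v B X (-T) = ker nodes v B X T := by
  unfold ker
  rw [abs_neg]

theorem nodeAt_even (X T : ℝ) (h : NodeAt nodes X T) : NodeAt nodes (-X) T := by
  obtain ⟨p, hp, hp'⟩ := h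
  exact ⟨p, hp, by rw [abs_neg]; exact hp'⟩

theorem ker_pieces (hN : IsNodes nodes) (hB : ∀ T, B 0 T = 0) (X T : ℝ)
    (hl : 1 ≤ X ^ 2 + T ^ 2) (hu : X ^ 2 + T ^ 2 ≤ 3) :
    ∃ a b : ℝ, a ≤ X ∧ X ≤ b ∧ NodeAt nodes a T ∧ NodeAt nodes b T ∧
      (∀ u, a ≤ u → u ≤ b → 1 ≤ u ^ 2 + T ^ 2 ∧ u ^ 2 + T ^ 2 ≤ 3) ∧
      ∃ α β : ℝ, ∀ u, a ≤ u → u ≤ b → ker nodes v B u T = α * u + β := by
  obtain ⟨a, b, h1, h2, h3, h4, h5, h6⟩ := hN.piece hl hu
  exact ⟨a, b, h1, h2, h3, h4, h5, h6 (v |T|) (fun u => B u |T|) (hB _)⟩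

theorem itp_abs {w : ι → ℝ} {K : ℝ} : ∀ {L : List (ℝ × ι)} {p : ℝ × ι} {u : ℝ},
    (∀ q ∈ p :: L, |w q.2| ≤ K) → p.1 ≤ u → |itp w (p :: L) u| ≤ K := by
  intro L
  induction L with
  | nil =>
    intro p u h _
    exact h p (by simp)
  | cons q L ih =>
    intro p u h hu
    unfold itp
    split_ifs with h1
    · have hp := abs_le.1 (h p (by simp))
      have hq := abs_le.1 (h q (by simp))
      set r := (u - p.1) / (q.1 - p.1) with hr
      have r0 : 0 ≤ r := div_nonneg (by linarith) (by linarith)
      have r1 : r ≤ 1 := by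
        rcases (by linarith : p.1 ≤ q.1).eq_or_lt with h2 | h2
        · rw [hr, h2, sub_self, div_zero]
          exact zero_le_one
        · rw [hr, div_le_one (by linarith)]
          linarith
      rw [abs_le]
      constructor <;> nlinarith
    · exact ih (fun q' hq' => h q' (List.mem_cons_of_mem _ hq')) (by linarith)

theorem ker_abs {K X T : ℝ} (hN : IsNodes nodes)
    (hv : T ^ 2 ≤ 3 → ∀ p ∈ nodes |T|, |v (|T|) p.2| ≤ K)
    (hB : 3 < X ^ 2 + T ^ 2 → |B (|X|) (|T|)| ≤ K)
    (hK : 0 ≤ K) : |ker nodes v B X T| ≤ K := by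
  have key : ∀ u : ℝ, 0 ≤ u → (3 < u ^ 2 + T ^ 2 → |B u (|T|)| ≤ K) →
      |itpH (v (|T|)) (B u (|T|)) (|T|) (nodes (|T|)) u| ≤ K := by
    intro u hu hb
    unfold itpH
    split_ifs with h1
    · rw [sq_abs] at h1
      exact hb h1
    · rw [sq_abs] at h1
      push Not at h1
      have ht3 : T ^ 2 ≤ 3 := by nlinarith [sq_nonneg u]
      have hv' := hv ht3
      have hnn := hN.nonneg |T| (abs_nonneg T) (by rw [sq_abs]; exact ht3)
      cases hL : nodes |T| with
      | nil => simp only [abs_zero]; exact hK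
      | cons p L =>
        rw [hL] at hv' hnn
        simp only
        split_ifs with h2
        · rw [abs_mul]
          have h3 := hv' p (by simp)
          have h4 : |u / p.1| ≤ 1 := by
            rw [abs_of_nonneg (div_nonneg hu (hu.trans h2))]
            rcases (hu.trans h2).eq_or_lt with h5 | h5
            · rw [← h5, div_zero]
              exact zero_le_one
            · rw [div_le_one h5]
              exact h2
          calc |v |T| p.2| * |u / p.1| ≤ K * 1 := mul_le_mul h3 h4 (abs_nonneg _) hK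
            _ = K := mul_one K
        · push Not at h2
          exact itp_abs hv' h2.le
  unfold ker itpO
  split_ifs with h
  · rw [abs_neg]
    refine key (-X) (by linarith) (fun h1 => ?_)
    rw [abs_of_neg h] at hB
    exact hB (by linarith [neg_sq X])
  · push Not at h
    refine key X h (fun h1 => ?_)
    rw [abs_of_nonneg h] at hB
    exact hB h1

/-! ### The value on an edge -/

/-- the value at a node -/
theorem ker_node (hN : IsNodes nodes) {T : ℝ} (hT : 0 ≤ T) (hT3 : T ^ 2 < 3)
    {p : ℝ × ι} (hp : p ∈ nodes T) : ker nodes v B p.1 T = v T p.2 := by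
  have ht : |T| = T := abs_of_nonneg hT
  have h1 := hN.ann T hT hT3.le p hp
  have h2 := hN.nonneg T hT hT3.le p hp
  have h3 : 0 < p.1 := lt_of_le_of_ne h2 (fun h => by
    have := hN.zero T hT hT3.le p hp h.symm
    linarith)
  have hch := hN.chain T hT hT3.le
  unfold ker itpO
  rw [ht, if_neg (by linarith)]
  unfold itpH
  rw [if_neg (by linarith)]
  have hit : ∀ {L : List (ℝ × ι)}, L.IsChain (fun p q => p.1 < q.1) → p ∈ L →
      itp (v T) L p.1 = v T p.2 := by
    intro L
    induction L with
    | nil => intro _ h; simp at h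
    | cons q L ih =>
      intro hc hm
      rcases List.mem_cons.1 hm with h4 | h4
      · subst h4
        exact itp_head _ hc
      · have h5 : q.1 < p.1 := List.rel_of_pairwise_cons hc.pairwise h4
        cases L with
        | nil => simp at h4
        | cons r L =>
          have hc' := (List.isChain_cons_cons.1 hc).2
          unfold itp
          split_ifs with h6
          · rcases List.mem_cons.1 h4 with h7 | h7
            · subst h7
              rw [div_self (by linarith)]
              ring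
            · have h8 : r.1 < p.1 := List.rel_of_pairwise_cons hc'.pairwise h7
              linarith
          · exact ih hc' h4
  cases hL : nodes T with
  | nil => rw [hL] at hp; simp at hp
  | cons q L =>
    rw [hL] at hp hch
    simp only
    split_ifs with h4
    · rcases List.mem_cons.1 hp with h5 | h5
      · subst h5
        rw [div_self h3.ne', mul_one]
      · have h6 : q.1 < p.1 := List.rel_of_pairwise_cons hch.pairwise h5
        linarith
    · exact hit hch hp

/-! ### Three circles -/

/-- the nodes at the lengths `1`, `√2`, `√3`, tags `0`, `1`, `2` -/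
noncomputable def nodes3 (t : ℝ) : List (ℝ × Fin 3) :=
  if 2 ≤ t ^ 2 then [(√(3 - t ^ 2), 2)]
  else if 1 ≤ t ^ 2 then [(√(2 - t ^ 2), 1), (√(3 - t ^ 2), 2)]
  else [(√(1 - t ^ 2), 0), (√(2 - t ^ 2), 1), (√(3 - t ^ 2), 2)]

theorem isNodes3 : IsNodes nodes3 := by
  have lt1 : ∀ t : ℝ, t ^ 2 < 1 → √(1 - t ^ 2) < √(2 - t ^ 2) := fun t h =>
    Real.sqrt_lt_sqrt (by linarith) (by linarith)
  have lt2 : ∀ t : ℝ, t ^ 2 < 2 → √(2 - t ^ 2) < √(3 - t ^ 2) := fun t h =>
    Real.sqrt_lt_sqrt (by linarith) (by linarith)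
  have mem : ∀ t : ℝ, t ^ 2 ≤ 3 → ∀ p ∈ nodes3 t, ∃ j : ℝ, (j = 1 ∨ j = 2 ∨ j = 3) ∧
      0 ≤ j - t ^ 2 ∧ p.1 = √(j - t ^ 2) ∧ (j - t ^ 2 = 0 → j = 3) := by
    intro t ht p hp
    unfold nodes3 at hp
    split_ifs at hp with h1 h2
    · simp only [List.mem_singleton] at hp
      subst hp
      exact ⟨3, by norm_num, by linarith, rfl, fun _ => rfl⟩
    · push Not at h1
      simp only [List.mem_cons, List.not_mem_nil, or_false] at hp
      rcases hp with rfl | rfl
      · exact ⟨2, by norm_num, by linarith, rfl, fun h => by linarith⟩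
      · exact ⟨3, by norm_num, by linarith, rfl, fun _ => rfl⟩
    · push Not at h1 h2
      simp only [List.mem_cons, List.not_mem_nil, or_false] at hp
      rcases hp with rfl | rfl | rfl
      · exact ⟨1, by norm_num, by linarith, rfl, fun h => by linarith⟩
      · exact ⟨2, by norm_num, by linarith, rfl, fun h => by linarith⟩
      · exact ⟨3, by norm_num, by linarith, rfl, fun _ => rfl⟩
  refine ⟨?_, ?_, ?_, ?_, ?_, ?_⟩
  · intro t _ ht
    unfold nodes3
    split_ifs with h1 h2
    · simp
    · push Not at h1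
      simp [lt2 t h1]
    · push Not at h1 h2
      simp [lt1 t h2, lt2 t h1]
  · intro t _ ht p hp
    obtain ⟨j, -, -, h3, -⟩ := mem t ht p hp
    rw [h3]
    exact Real.sqrt_nonneg _
  · intro t _ ht p hp
    obtain ⟨j, h1, h2, h3, -⟩ := mem t ht p hp
    rw [h3, Real.sq_sqrt h2]
    rcases h1 with rfl | rfl | rfl <;> constructor <;> linarith
  · intro t _ ht
    refine ⟨(√(3 - t ^ 2), 2), ?_, ?_⟩
    · unfold nodes3
      split_ifs <;> simp
    · simp only
      rw [Real.sq_sqrt (by linarith)]
      ring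
  · intro t h0 h1
    have h2 : t ^ 2 < 1 := by nlinarith
    refine ⟨(√(1 - t ^ 2), 0), ?_, ?_⟩
    · unfold nodes3
      rw [if_neg (by linarith), if_neg (by linarith)]
      simp
    · simp only
      rw [Real.sq_sqrt (by linarith)]
      ring
  · intro t _ ht p hp h0
    obtain ⟨j, h1, h2, h3, h4⟩ := mem t ht p hp
    have h5 : j - t ^ 2 = 0 := by
      rw [h3] at h0
      exact (Real.sqrt_eq_zero h2).1 h0
    have h6 := h4 h5
    linarith

/-- an edge at one of the nodes -/
theorem nodeAt3 {X Y : ℝ} (h3 : Y ^ 2 ≤ 3) (h : NodeAt nodes3 X Y) :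
    X ^ 2 + Y ^ 2 = 1 ∨ X ^ 2 + Y ^ 2 = 2 ∨ X ^ 2 + Y ^ 2 = 3 := by
  obtain ⟨p, hp, hp'⟩ := h
  have e : X ^ 2 = p.1 ^ 2 := by rw [← hp', sq_abs]
  rw [e]
  have hY : |Y| ^ 2 = Y ^ 2 := sq_abs Y
  unfold nodes3 at hp
  rw [hY] at hp
  split_ifs at hp with h1 h2
  · simp only [List.mem_singleton] at hp
    subst hp
    simp only
    rw [Real.sq_sqrt (by linarith)]
    right; right; ring
  · push Not at h1
    simp only [List.mem_cons, List.not_mem_nil, or_false] at hp
    rcases hp with rfl | rfl
    · simp only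
      rw [Real.sq_sqrt (by linarith)]
      right; left; ring
    · simp only
      rw [Real.sq_sqrt (by linarith)]
      right; right; ring
  · push Not at h1 h2
    simp only [List.mem_cons, List.not_mem_nil, or_false] at hp
    rcases hp with rfl | rfl | rfl
    · simp only
      rw [Real.sq_sqrt (by linarith)]
      left; ring
    · simp only
      rw [Real.sq_sqrt (by linarith)]
      right; left; ring
    · simp only
      rw [Real.sq_sqrt (by linarith)]
      right; right; ring

end Pool.Agent.Strip051.LC
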