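import Pool.Agent.Strip051.LC.NoAcute
import Pool.Agent.Strip051.LC.Exact.Strip

/-! # Long edges by flips

`F` is an antisymmetric edge function.  Suppose that all small triangles (sides in `[1, √3]`) with
vertices in a set `V` have flux at least `1 / 2`.  Then `F` can be changed on the long edges such that
all cells with exactly one long side are good.  The reason is a flip: if `p q` is long and `p q r`,
`q p r'` are cells then `|r r'| ≥ 1`, and if `|r r'| ≤ √3` then the quadrilateral `p r' q r` is the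
union of the small triangles `p r' r` and `r' q r`.  If both diagonals are long the inequality for
the quadrilateral is a hypothesis (the area is large), and the cells with two long sides must have
some slack. -/

namespace Pool.Agent.Strip051.LC

open Pool.Agent.StripNear Pool.Agent.StripSquare Pool.Agent.Strip051.Sweep

/-! ### Geometry -/

theorem Cel.dot_nonneg {p q r : Pt} (h : Cel p q r) (h3 : 3 ≤ ds p q) :
    0 ≤ (q.1 - p.1) * (r.1 - p.1) + (q.2 - p.2) * (r.2 - p.2) := by
  have h1 : ds q r ≤ 4 := h.rot.le_four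
  have h2 := h.pr
  have e : (q.1 - p.1) * (r.1 - p.1) + (q.2 - p.2) * (r.2 - p.2) =
      (ds p r + ds p q - ds q r) / 2 := by
    unfold ds
    ring
  rw [e]
  linarith

theorem Cel.four_cr {p q r : Pt} (h : Cel p q r) : ds p q ≤ 4 * cr p q r ^ 2 := by
  have h1 := h.rad
  have h2 : 1 ≤ ds q r * ds p r := by nlinarith [h.qr, h.pr]
  nlinarith [h.pq]

/-- The two cells on the sides of a long edge: the other diagonal has length at least one and cuts
the quadrilateral into two positively oriented triangles. -/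
theorem flip_geom {p q r r' : Pt} (h : Cel p q r) (h' : Cel q p r') (h3 : 3 ≤ ds p q) :
    1 ≤ ds r r' ∧ 0 ≤ cr p r' r ∧ 0 ≤ cr r' q r := by
  have h0 : 0 < ds p q := by linarith
  have h3' : 3 ≤ ds q p := by rwa [ds_comm]
  have x1 := h.dot_nonneg h3
  have x2 : 0 ≤ (p.1 - q.1) * (r'.1 - q.1) + (p.2 - q.2) * (r'.2 - q.2) := h'.dot_nonneg h3'
  -- the angles at the other ends
  have y1 : 0 ≤ (p.1 - q.1) * (r.1 - q.1) + (p.2 - q.2) * (r.2 - q.2) := by
    have h1 : ds p r ≤ 4 := by
      have := h.rot.rot.le_four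
      rwa [ds_comm] at this
    have h2 := h.qr
    have e : (p.1 - q.1) * (r.1 - q.1) + (p.2 - q.2) * (r.2 - q.2) =
        (ds q r + ds p q - ds p r) / 2 := by
      unfold ds
      ring
    rw [e]
    linarith
  have y2 : 0 ≤ (q.1 - p.1) * (r'.1 - p.1) + (q.2 - p.2) * (r'.2 - p.2) := by
    have h1 : ds q r' ≤ 4 := by
      have := h'.rot.rot.le_four
      rwa [ds_comm] at this
    have h2 := h'.qr
    have e : (q.1 - p.1) * (r'.1 - p.1) + (q.2 - p.2) * (r'.2 - p.2) =
        (ds p r' + ds p q - ds q r') / 2 := by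
      unfold ds
      ring
    rw [e]
    linarith
  have k1 := h.four_cr
  have k2 := h'.four_cr
  rw [ds_comm q p] at k2
  have c1 := h.cr0
  have c2 := h'.cr0
  refine ⟨?_, ?_, ?_⟩
  · -- the distance
    have e : ds p q * ds r r' =
        ((q.1 - p.1) * (r.1 - r'.1) + (q.2 - p.2) * (r.2 - r'.2)) ^ 2 +
          (cr p q r + cr q p r') ^ 2 := by
      unfold ds cr
      ring
    have kk : ds p q ≤ 4 * (cr p q r * cr q p r') := by
      have : (ds p q) ^ 2 ≤ (4 * (cr p q r * cr q p r')) ^ 2 := by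
        have : (ds p q) ^ 2 ≤ (4 * cr p q r ^ 2) * (4 * cr q p r' ^ 2) := by
          rw [pow_two]
          exact mul_le_mul k1 k2 h0.le (by positivity)
        calc _ ≤ _ := this
          _ = _ := by ring
      exact sq_le_aux this (by positivity)
    have : ds p q ≤ ds p q * ds r r' := by
      rw [e]
      nlinarith [sq_nonneg ((q.1 - p.1) * (r.1 - r'.1) + (q.2 - p.2) * (r.2 - r'.2))]
    nlinarith
  · have e : ds p q * cr p r' r =
        ((q.1 - p.1) * (r'.1 - p.1) + (q.2 - p.2) * (r'.2 - p.2)) * cr p q r +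
        ((q.1 - p.1) * (r.1 - p.1) + (q.2 - p.2) * (r.2 - p.2)) * cr q p r' := by
      unfold ds cr
      ring
    have : 0 ≤ ds p q * cr p r' r := by
      rw [e]
      positivity
    exact nonneg_of_mul_nonneg_right this h0
  · have e : ds p q * cr r' q r =
        ((p.1 - q.1) * (r'.1 - q.1) + (p.2 - q.2) * (r'.2 - q.2)) * cr p q r +
        ((p.1 - q.1) * (r.1 - q.1) + (p.2 - q.2) * (r.2 - q.2)) * cr q p r' := by
      unfold ds cr
      ring
    have : 0 ≤ ds p q * cr r' q r := by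
      rw [e]
      positivity
    exact nonneg_of_mul_nonneg_right this h0

/-- A cell has at most two long sides. -/
theorem Cel.not_three {p q r : Pt} (h : Cel p q r) (h1 : 3 < ds p q) (h2 : 3 < ds q r) :
    ds p r ≤ 3 := by
  by_contra hcon
  push Not at hcon
  have h4 := h.rad
  have e : 4 * cr p q r ^ 2 = 2 * (ds p q * ds q r + ds q r * ds p r + ds p r * ds p q) -
      (ds p q ^ 2 + ds q r ^ 2 + ds p r ^ 2) := by
    unfold cr ds
    ring
  rw [e] at h4
  set a := ds p q
  set b := ds q r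
  set c := ds p r
  have ha : 0 < a := by linarith
  have hb : 0 < b := by linarith
  have hc : 0 < c := by linarith
  have m1 : 3 * (b * c) < a * (b * c) := mul_lt_mul_of_pos_right h1 (mul_pos hb hc)
  have m2 : 3 * (c * a) < b * (c * a) := mul_lt_mul_of_pos_right h2 (mul_pos hc ha)
  have m3 : 3 * (a * b) < c * (a * b) := mul_lt_mul_of_pos_right hcon (mul_pos ha hb)
  nlinarith [sq_nonneg (a - b), sq_nonneg (b - c), sq_nonneg (c - a)]

/-! ### The extension -/

/-- The hypotheses: `V` is the set of admissible points, `δ p q` bounds the defect of the cells on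
the left of the long edge `p q`. -/
structure Ext (V : Pt → Prop) (F : Pt → Pt → ℝ) (δ : Pt → Pt → ℝ) : Prop where
  anti : ∀ a b, F b a = -F a b
  small : ∀ p q r, V p → V q → V r → 0 ≤ cr p q r → 1 ≤ ds p q → 1 ≤ ds q r → 1 ≤ ds p r →
    ds p q ≤ 3 → ds q r ≤ 3 → ds p r ≤ 3 → 1 / 2 ≤ F p q + F q r + F r p
  quad : ∀ p q r r', V p → V q → V r → V r' → Cel p q r → Cel q p r' → 3 < ds p q →
    ds q r ≤ 3 → ds p r ≤ 3 → ds q r' ≤ 3 → ds p r' ≤ 3 → 3 < ds r r' →
    1 ≤ F p r' + F r' q + F q r + F r p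
  one : ∀ p q r, V p → V q → V r → Cel p q r → 3 < ds p q → ds q r ≤ 3 → ds p r ≤ 3 →
    1 / 2 - δ p q ≤ F p q + F q r + F r p
  two : ∀ p q r, V p → V q → V r → Cel p q r → 3 < ds p q → ds q r ≤ 3 → 3 < ds p r →
    1 / 2 + δ q p + δ p r ≤ F p q + F q r + F r p
  nonneg : ∀ p q, 0 ≤ δ p q

/-- The defects of the cells with one long side on the left of `p q`. -/
def defs (V : Pt → Prop) (F : Pt → Pt → ℝ) (p q : Pt) : Set ℝ :=
  {x | x = 0 ∨ ∃ r, V r ∧ Cel p q r ∧ ds q r ≤ 3 ∧ ds p r ≤ 3 ∧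
    x = 1 / 2 - (F p q + F q r + F r p)}

/-- The largest defect. -/
noncomputable def dfc (V : Pt → Prop) (F : Pt → Pt → ℝ) (p q : Pt) : ℝ := sSup (defs V F p q)

open Classical in
/-- The extended edge function. -/
noncomputable def FE (V : Pt → Prop) (F : Pt → Pt → ℝ) (p q : Pt) : ℝ :=
  if V p ∧ V q ∧ 3 < ds p q then F p q + dfc V F p q - dfc V F q p else F p q

section

variable {V : Pt → Prop} {F : Pt → Pt → ℝ} {δ : Pt → Pt → ℝ}

theorem FE_short {p q : Pt} (h : ds p q ≤ 3) : FE V F p q = F p q := by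
  unfold FE
  rw [if_neg]
  rintro ⟨-, -, h'⟩
  linarith

theorem FE_long {p q : Pt} (hp : V p) (hq : V q) (h : 3 < ds p q) :
    FE V F p q = F p q + dfc V F p q - dfc V F q p := by
  unfold FE
  rw [if_pos ⟨hp, hq, h⟩]

theorem FE_anti (anti : ∀ a b, F b a = -F a b) (a b : Pt) : FE V F b a = -FE V F a b := by
  unfold FE
  by_cases h : V a ∧ V b ∧ 3 < ds a b
  · rw [if_pos h, if_pos ⟨h.2.1, h.1, by rw [ds_comm]; exact h.2.2⟩, anti a b]
    ring
  · rw [if_neg h, if_neg, anti a b]
    rintro ⟨h1, h2, h3⟩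
    exact h ⟨h2, h1, by rw [ds_comm]; exact h3⟩

theorem defs_zero (p q : Pt) : (0 : ℝ) ∈ defs V F p q := Or.inl rfl

theorem Ext.defs_le (h : Ext V F δ) {p q : Pt} (hp : V p) (hq : V q) (h3 : 3 < ds p q) :
    ∀ x ∈ defs V F p q, x ≤ δ p q := by
  rintro x (rfl | ⟨r, hr, hc, h1, h2, rfl⟩)
  · exact h.nonneg p q
  · have := h.one p q r hp hq hr hc h3 h1 h2
    linarith

theorem Ext.dfc_le (h : Ext V F δ) {p q : Pt} (hp : V p) (hq : V q) (h3 : 3 < ds p q) :
    dfc V F p q ≤ δ p q :=
  csSup_le ⟨0, defs_zero p q⟩ (h.defs_le hp hq h3)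

theorem Ext.le_dfc (h : Ext V F δ) {p q : Pt} (hp : V p) (hq : V q) (h3 : 3 < ds p q) {x : ℝ}
    (hx : x ∈ defs V F p q) : x ≤ dfc V F p q :=
  le_csSup ⟨δ p q, h.defs_le hp hq h3⟩ hx

theorem Ext.dfc_nonneg (h : Ext V F δ) {p q : Pt} (hp : V p) (hq : V q) (h3 : 3 < ds p q) :
    0 ≤ dfc V F p q := h.le_dfc hp hq h3 (defs_zero p q)

theorem Ext.FE_sub (h : Ext V F δ) {p q : Pt} (hp : V p) (hq : V q) (h3 : 3 < ds p q) :
    F p q - δ q p ≤ FE V F p q ∧ FE V F p q ≤ F p q + δ p q := by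
  have h3' : 3 < ds q p := by rwa [ds_comm]
  rw [FE_long hp hq h3]
  have a1 := h.dfc_le hp hq h3
  have a2 := h.dfc_le hq hp h3'
  have a3 := h.dfc_nonneg hp hq h3
  have a4 := h.dfc_nonneg hq hp h3'
  constructor <;> linarith

/-- Two cells with one long side on both sides of a long edge. -/
theorem Ext.pair (h : Ext V F δ) {p q r r' : Pt} (hp : V p) (hq : V q) (hr : V r) (hr' : V r')
    (h1 : Cel p q r) (h2 : Cel q p r') (h3 : 3 < ds p q) (k1 : ds q r ≤ 3) (k2 : ds p r ≤ 3)
    (k3 : ds q r' ≤ 3) (k4 : ds p r' ≤ 3) : 1 ≤ F p r' + F r' q + F q r + F r p := by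
  rcases le_or_gt (ds r r') 3 with c | c
  · obtain ⟨g1, g2, g3⟩ := flip_geom h1 h2 h3.le
    have e1 := h.small p r' r hp hr' hr g2 h2.qr (by rw [ds_comm]; exact g1) h1.pr k4
      (by rw [ds_comm]; exact c) k2
    have e2 := h.small r' q r hr' hq hr g3 (by rw [ds_comm]; exact h2.pr) h1.qr
      (by rw [ds_comm]; exact g1) (by rw [ds_comm]; exact k3) k1 (by rw [ds_comm]; exact c)
    have e3 := h.anti r r'
    linarith
  · exact h.quad p q r r' hp hq hr hr' h1 h2 h3 k1 k2 k3 k4 c

/-- A cell with one long side is good for the extension. -/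
theorem Ext.good_one (h : Ext V F δ) {p q r : Pt} (hp : V p) (hq : V q) (hr : V r)
    (hc : Cel p q r) (h3 : 3 < ds p q) (k1 : ds q r ≤ 3) (k2 : ds p r ≤ 3) :
    1 / 2 ≤ FE V F p q + FE V F q r + FE V F r p := by
  have h3' : 3 < ds q p := by rwa [ds_comm]
  have k2' : ds r p ≤ 3 := by rwa [ds_comm]
  rw [FE_long hp hq h3, FE_short k1, FE_short k2']
  set v := F p q + F q r + F r p - 1 / 2 with hv
  -- the defects on the other side
  have key : dfc V F q p ≤ max v 0 := by
    refine csSup_le ⟨0, defs_zero q p⟩ ?_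
    rintro x (rfl | ⟨r', hr', hc', l1, l2, rfl⟩)
    · exact le_max_right _ _
    · refine le_trans ?_ (le_max_left _ _)
      have := h.pair hp hq hr hr' hc hc' h3 k1 k2 l2 l1
      have a1 := h.anti p q
      rw [hv]
      linarith
  have a1 : -v ≤ dfc V F p q := h.le_dfc hp hq h3 (Or.inr ⟨r, hr, hc, k1, k2, by rw [hv]; ring⟩)
  have a2 := h.dfc_nonneg hp hq h3
  rcases le_total v 0 with c | c
  · rw [max_eq_right c] at key
    linarith
  · rw [max_eq_left c] at key
    linarith

/-- A cell with two long sides is good for the extension. -/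
theorem Ext.good_two (h : Ext V F δ) {p q r : Pt} (hp : V p) (hq : V q) (hr : V r)
    (hc : Cel p q r) (h3 : 3 < ds p q) (k1 : ds q r ≤ 3) (k2 : 3 < ds p r) :
    1 / 2 ≤ FE V F p q + FE V F q r + FE V F r p := by
  have e := h.two p q r hp hq hr hc h3 k1 k2
  have e1 := (h.FE_sub hp hq h3).1
  have e2 := (h.FE_sub hr hp (by rwa [ds_comm])).1
  rw [FE_short k1]
  linarith

/-- **Every cell in `V` is good for the extension.** -/
theorem Ext.good (h : Ext V F δ) {p q r : Pt} (hp : V p) (hq : V q) (hr : V r)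
    (hc : Cel p q r) : 1 / 2 ≤ FE V F p q + FE V F q r + FE V F r p := by
  -- at most two long sides
  have cm : ds r p = ds p r := ds_comm r p
  rcases le_or_gt (ds p q) 3 with a | a
  · rcases le_or_gt (ds q r) 3 with b | b
    · rcases le_or_gt (ds p r) 3 with c | c
      · rw [FE_short a, FE_short b, FE_short (by rw [cm]; exact c)]
        exact h.small p q r hp hq hr hc.cr0 hc.pq hc.qr hc.pr a b c
      · have := h.good_one hr hp hq hc.rot.rot (by rw [cm]; exact c) a (by rw [ds_comm]; exact b)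
        linarith
    · rcases le_or_gt (ds p r) 3 with c | c
      · have := h.good_one hq hr hp hc.rot b (by rw [cm]; exact c) (by rw [ds_comm]; exact a)
        linarith
      · -- `q r` and `p r` long, `p q` short: the common vertex is `r`
        have := h.good_two hr hp hq hc.rot.rot (by rw [cm]; exact c) a (by rw [ds_comm]; exact b)
        linarith
  · rcases le_or_gt (ds q r) 3 with b | b
    · rcases le_or_gt (ds p r) 3 with c | c
      · exact h.good_one hp hq hr hc a b c
      · exact h.good_two hp hq hr hc a b c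
    · -- `p q` and `q r` long: the common vertex is `q`
      have c := hc.not_three a b
      have := h.good_two hq hr hp hc.rot b (by rw [cm]; exact c) (by rw [ds_comm]; exact a)
      linarith

end

/-! ### The strip -/

theorem cel_mir {H : ℝ} {p q r : Pt} (h : Cel p q r) : Cel (mir H q) (mir H p) (mir H r) := by
  have hds : ∀ a b : Pt, ds (mir H a) (mir H b) = ds a b := by
    intro a b
    unfold ds mir
    ring
  have hcr : cr (mir H q) (mir H p) (mir H r) = cr p q r := by
    unfold cr mir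
    ring
  obtain ⟨h0, h1, h2, h3, h4⟩ := h
  refine ⟨by rw [hcr]; exact h0, by rw [hds, ds_comm]; exact h1, by rw [hds]; exact h3,
    by rw [hds]; exact h2, ?_⟩
  rw [hcr, hds, hds, hds, ds_comm q p]
  calc _ = ds p q * ds q r * ds p r := by ring
    _ ≤ _ := h4

theorem mir_mir (H : ℝ) (p : Pt) : mir H (mir H p) = p := by
  unfold mir
  simp

theorem defs_mir {H : ℝ} {F : Pt → Pt → ℝ} (hm : ∀ a b, F (mir H a) (mir H b) = F b a)
    (p q : Pt) : defs (In H) F (mir H q) (mir H p) ⊆ defs (In H) F p q := by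
  rintro x (rfl | ⟨r, hr, hc, l1, l2, rfl⟩)
  · exact Or.inl rfl
  · right
    have hds : ∀ a b : Pt, ds (mir H a) b = ds a (mir H b) := by
      intro a b
      unfold ds mir
      ring
    refine ⟨mir H r, hr.mir, ?_, ?_, ?_, ?_⟩
    · have := cel_mir (H := H) hc
      rwa [mir_mir, mir_mir] at this
    · rw [hds] at l2
      exact l2
    · rw [hds] at l1
      exact l1
    · have e1 := hm q p
      have e2 : F (mir H p) r = F (mir H r) p := by
        have := hm p (mir H r)
        rwa [mir_mir] at this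
      have e3 : F r (mir H q) = F q (mir H r) := by
        have := hm (mir H r) q
        rwa [mir_mir] at this
      rw [e1, e2, e3]
      ring

theorem dfc_mir {H : ℝ} {F : Pt → Pt → ℝ} (hm : ∀ a b, F (mir H a) (mir H b) = F b a)
    (p q : Pt) : dfc (In H) F (mir H q) (mir H p) = dfc (In H) F p q := by
  unfold dfc
  congr 1
  apply Set.Subset.antisymm (defs_mir hm p q)
  have := defs_mir hm (mir H q) (mir H p)
  rwa [mir_mir, mir_mir] at this

theorem FE_mir {H : ℝ} {F : Pt → Pt → ℝ} (hm : ∀ a b, F (mir H a) (mir H b) = F b a)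
    (a b : Pt) : FE (In H) F (mir H a) (mir H b) = FE (In H) F b a := by
  have hds : ds (mir H a) (mir H b) = ds b a := by
    unfold ds mir
    ring
  have hin : ∀ p : Pt, In H (mir H p) ↔ In H p := by
    intro p
    refine ⟨fun h => ?_, fun h => h.mir⟩
    have := h.mir
    rwa [mir_mir] at this
  unfold FE
  rw [hin, hin, hds, hm]
  by_cases h : In H a ∧ In H b ∧ 3 < ds b a
  · rw [if_pos h, if_pos ⟨h.2.1, h.1, h.2.2⟩, dfc_mir hm, dfc_mir hm]
  · rw [if_neg h, if_neg]
    rintro ⟨h1, h2, h3⟩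
    exact h ⟨h2, h1, h3⟩

/-- **The certificate for the strip**: flips instead of the inequalities for cells with one long
side. -/
theorem Ext.symH {H w : ℝ} {F : Pt → Pt → ℝ} {δ : Pt → Pt → ℝ} (h : Ext (In H) F δ)
    (hm : ∀ a b, F (mir H a) (mir H b) = F b a)
    (wall : ∀ (p q : Pt) (m : ℝ), p.1 ≤ q.1 → In H p → In H q → 1 ≤ ds p q → ds p q ≤ 3 →
      (p.1 - m) ^ 2 + p.2 ^ 2 = (q.1 - m) ^ 2 + q.2 ^ 2 → (p.1 - m) ^ 2 + p.2 ^ 2 ≤ 1 →
      1 / 2 ≤ w * (q.1 - p.1) + F q p)
    (wallL : ∀ (p q : Pt) (m : ℝ), p.1 ≤ q.1 → In H p → In H q → 3 < ds p q →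
      (p.1 - m) ^ 2 + p.2 ^ 2 = (q.1 - m) ^ 2 + q.2 ^ 2 → (p.1 - m) ^ 2 + p.2 ^ 2 ≤ 1 →
      1 / 2 + δ p q ≤ w * (q.1 - p.1) + F q p) : SymH H w (FE (In H) F) := by
  refine ⟨FE_anti h.anti, FE_mir hm, ?_, ?_⟩
  · intro p q r o R hp hq hr _ h0 h1 h2 h3 h4 h5 h6 h7
    exact h.good hp hq hr (Cel.of_center h0 h1 h2 h3 h4 h5 h6 h7)
  · intro p q m k1 hp hq k2 k3 k4
    rcases le_or_gt (ds p q) 3 with c | c
    · rw [FE_short (by rw [ds_comm]; exact c)]
      exact wall p q m k1 hp hq k2 c k3 k4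
    · have e := (h.FE_sub hq hp (by rw [ds_comm]; exact c)).1
      have := wallL p q m k1 hp hq c k3 k4
      linarith

/-- The extension is bounded. -/
theorem Ext.bdd {V : Pt → Prop} {F : Pt → Pt → ℝ} {δ : Pt → Pt → ℝ} (h : Ext V F δ) {K D : ℝ}
    (hD : ∀ p q, δ p q ≤ D) {a b : Pt} (hab : |F a b| ≤ K) : |FE V F a b| ≤ K + D := by
  have hD0 : 0 ≤ D := (h.nonneg a b).trans (hD a b)
  by_cases c : V a ∧ V b ∧ 3 < ds a b
  · obtain ⟨e1, e2⟩ := h.FE_sub c.1 c.2.1 c.2.2
    obtain ⟨f1, f2⟩ := abs_le.1 hab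
    have d1 := hD a b
    have d2 := hD b a
    rw [abs_le]
    constructor <;> linarith
  · unfold FE
    rw [if_neg c]
    linarith

end Pool.Agent.Strip051.LC
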