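import Pool.Agent.Strip051.LC.Corner

/-! # Interpolation between static node curves

For a fixed difference of heights `t` the list `nodes t` contains the abscissae of the nodes, each
with a tag; the value of a function at a node is given by its tag.  Between the nodes all functions
are interpolated, so that linear combinations of them are affine between consecutive nodes. -/

namespace Pool.Agent.Strip051.LC

open Pool.Agent.StripNear Pool.Agent.Strip051.Sweep

/-- `f` is affine on `[a, b]`. -/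
def AffOn (f : ℝ → ℝ) (a b : ℝ) : Prop := ∃ α β : ℝ, ∀ u, a ≤ u → u ≤ b → f u = α * u + β

namespace AffOn

variable {f g : ℝ → ℝ} {a b : ℝ}

theorem of_affine (α β : ℝ) : AffOn (fun u => α * u + β) a b := ⟨α, β, fun _ _ _ => rfl⟩

theorem const (β : ℝ) : AffOn (fun _ => β) a b := ⟨0, β, fun _ _ _ => by ring⟩

theorem id : AffOn (fun u => u) a b := ⟨1, 0, fun _ _ _ => by ring⟩

theorem add (hf : AffOn f a b) (hg : AffOn g a b) : AffOn (fun u => f u + g u) a b := by
  obtain ⟨α, β, h⟩ := hf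
  obtain ⟨γ, δ, k⟩ := hg
  exact ⟨α + γ, β + δ, fun u h1 h2 => by simp only; rw [h u h1 h2, k u h1 h2]; ring⟩

theorem sub (hf : AffOn f a b) (hg : AffOn g a b) : AffOn (fun u => f u - g u) a b := by
  obtain ⟨α, β, h⟩ := hf
  obtain ⟨γ, δ, k⟩ := hg
  exact ⟨α - γ, β - δ, fun u h1 h2 => by simp only; rw [h u h1 h2, k u h1 h2]; ring⟩

theorem neg (hf : AffOn f a b) : AffOn (fun u => -f u) a b := by
  obtain ⟨α, β, h⟩ := hf
  exact ⟨-α, -β, fun u h1 h2 => by simp only; rw [h u h1 h2]; ring⟩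

theorem mul_const (hf : AffOn f a b) (c : ℝ) : AffOn (fun u => f u * c) a b := by
  obtain ⟨α, β, h⟩ := hf
  exact ⟨α * c, β * c, fun u h1 h2 => by simp only; rw [h u h1 h2]; ring⟩

theorem const_mul (hf : AffOn f a b) (c : ℝ) : AffOn (fun u => c * f u) a b := by
  obtain ⟨α, β, h⟩ := hf
  exact ⟨c * α, c * β, fun u h1 h2 => by simp only; rw [h u h1 h2]; ring⟩

theorem congr (hf : AffOn f a b) (h : ∀ u, a ≤ u → u ≤ b → g u = f u) : AffOn g a b := by
  obtain ⟨α, β, k⟩ := hf
  exact ⟨α, β, fun u h1 h2 => by rw [h u h1 h2, k u h1 h2]⟩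

/-- the mirror image of an odd function -/
theorem reflect (hf : AffOn f a b) (h : ∀ u, f (-u) = -f u) : AffOn f (-b) (-a) := by
  obtain ⟨α, β, k⟩ := hf
  refine ⟨α, -β, fun u h1 h2 => ?_⟩
  have := k (-u) (by linarith) (by linarith)
  rw [h] at this
  linarith

end AffOn

variable {ι : Type*}

/-- Interpolation between the nodes of a list. -/
noncomputable def itp (v : ι → ℝ) : List (ℝ × ι) → ℝ → ℝ
  | [], _ => 0
  | [p], _ => v p.2
  | p :: q :: L, u =>
    if u ≤ q.1 then v p.2 + (v q.2 - v p.2) * ((u - p.1) / (q.1 - p.1)) else itp v (q :: L) u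

theorem itp_head (v : ι → ℝ) {p : ℝ × ι} {L : List (ℝ × ι)}
    (hL : (p :: L).IsChain (fun p q => p.1 < q.1)) : itp v (p :: L) p.1 = v p.2 := by
  cases L with
  | nil => rfl
  | cons q L =>
    rw [List.isChain_cons_cons] at hL
    unfold itp
    rw [if_pos hL.1.le, sub_self, zero_div, mul_zero, add_zero]

theorem itp_piece : ∀ {L : List (ℝ × ι)} {p0 : ℝ × ι} {u : ℝ},
    (p0 :: L).IsChain (fun p q => p.1 < q.1) → p0.1 < u → (∃ r ∈ p0 :: L, u ≤ r.1) →
    ∃ p ∈ p0 :: L, ∃ q ∈ p0 :: L, p0.1 ≤ p.1 ∧ p.1 ≤ u ∧ u ≤ q.1 ∧ p.1 < q.1 ∧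
      ∀ (v : ι → ℝ) (w : ℝ), p.1 ≤ w → w ≤ q.1 →
        itp v (p0 :: L) w = v p.2 + (v q.2 - v p.2) * ((w - p.1) / (q.1 - p.1)) := by
  intro L
  induction L with
  | nil =>
    rintro p0 u - h1 ⟨r, hr, hr'⟩
    rw [List.mem_singleton] at hr
    subst hr
    linarith
  | cons q L ih =>
    rintro p0 u hL h1 ⟨r, hr, hr'⟩
    have hL0 := hL
    rw [List.isChain_cons_cons] at hL
    obtain ⟨hpq, hL'⟩ := hL
    rcases le_or_gt u q.1 with h | h
    · refine ⟨p0, by simp, q, by simp, le_rfl, h1.le, h, hpq, fun v w k1 k2 => ?_⟩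
      unfold itp
      rw [if_pos k2]
    · have hr2 : r ∈ q :: L := by
        rcases List.mem_cons.1 hr with h2 | h2
        · subst h2
          linarith
        · exact h2
      obtain ⟨p', hp', q', hq', e1, e2, e3, e4, e5⟩ := ih hL' h ⟨r, hr2, hr'⟩
      refine ⟨p', List.mem_cons_of_mem _ hp', q', List.mem_cons_of_mem _ hq', by linarith, e2, e3,
        e4, fun v w k1 k2 => ?_⟩
      have e6 := e5 v w k1 k2
      rw [← e6]
      conv_lhs => unfold itp
      split_ifs with h3
      · have h4 : w = q.1 := le_antisymm h3 (by linarith)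
        rw [h4, itp_head v hL', div_self (by linarith)]
        ring
      · rfl

/-- Interpolation for `0 ≤ u`, linear before the first node and `b` beyond the annulus. -/
noncomputable def itpH (v : ι → ℝ) (b t : ℝ) (L : List (ℝ × ι)) (u : ℝ) : ℝ :=
  if 3 < u ^ 2 + t ^ 2 then b
  else match L with
  | [] => 0
  | p :: L => if u ≤ p.1 then v p.2 * (u / p.1) else itp v (p :: L) u

/-- The odd extension. -/
noncomputable def itpO (v : ι → ℝ) (b : ℝ → ℝ) (t : ℝ) (L : List (ℝ × ι)) (u : ℝ) : ℝ :=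
  if u < 0 then -itpH v (b (-u)) t L (-u) else itpH v (b u) t L u

/-- The conditions on the nodes. -/
structure IsNodes (nodes : ℝ → List (ℝ × ι)) : Prop where
  chain : ∀ t, 0 ≤ t → t ^ 2 ≤ 3 → (nodes t).IsChain (fun p q => p.1 < q.1)
  nonneg : ∀ t, 0 ≤ t → t ^ 2 ≤ 3 → ∀ p ∈ nodes t, 0 ≤ p.1
  ann : ∀ t, 0 ≤ t → t ^ 2 ≤ 3 → ∀ p ∈ nodes t, 1 ≤ p.1 ^ 2 + t ^ 2 ∧ p.1 ^ 2 + t ^ 2 ≤ 3
  top : ∀ t, 0 ≤ t → t ^ 2 ≤ 3 → ∃ p ∈ nodes t, p.1 ^ 2 + t ^ 2 = 3
  bot : ∀ t, 0 ≤ t → t < 1 → ∃ p ∈ nodes t, p.1 ^ 2 + t ^ 2 = 1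
  zero : ∀ t, 0 ≤ t → t ^ 2 ≤ 3 → ∀ p ∈ nodes t, p.1 = 0 → t ^ 2 = 3

/-- the edge is at a node -/
def NodeAt (nodes : ℝ → List (ℝ × ι)) (X Y : ℝ) : Prop := ∃ p ∈ nodes |Y|, |X| = p.1

theorem itpO_odd {nodes : ℝ → List (ℝ × ι)} (hN : IsNodes nodes) {v : ι → ℝ} {b : ℝ → ℝ}
    (hb : b 0 = 0) {t : ℝ} (ht : 0 ≤ t) (u : ℝ) :
    itpO v b t (nodes t) (-u) = -itpO v b t (nodes t) u := by
  unfold itpO
  rcases lt_trichotomy u 0 with h | h | h
  · rw [if_neg (by linarith), if_pos h, neg_neg]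
  · subst h
    rw [neg_zero, if_neg (lt_irrefl _)]
    have h0 : itpH v (b 0) t (nodes t) 0 = 0 := by
      unfold itpH
      split_ifs with h3
      · exact hb
      · have ht3 : t ^ 2 ≤ 3 := by linarith [sq_nonneg (0 : ℝ)]
        cases hL : nodes t with
        | nil => rfl
        | cons p L =>
          have hp : 0 ≤ p.1 := hN.nonneg t ht ht3 p (by rw [hL]; simp)
          simp only
          rw [if_pos hp, zero_div, mul_zero]
    rw [h0, if_neg (lt_irrefl _), neg_zero]
  · rw [if_pos (by linarith), if_neg (by linarith), neg_neg]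

/-- **All interpolated functions are affine on a common interval between two nodes.** -/
theorem IsNodes.piece {nodes : ℝ → List (ℝ × ι)} (hN : IsNodes nodes) {X Y : ℝ}
    (hl : 1 ≤ X ^ 2 + Y ^ 2) (hu : X ^ 2 + Y ^ 2 ≤ 3) :
    ∃ a b : ℝ, a ≤ X ∧ X ≤ b ∧ NodeAt nodes a Y ∧ NodeAt nodes b Y ∧
      (∀ u, a ≤ u → u ≤ b → 1 ≤ u ^ 2 + Y ^ 2 ∧ u ^ 2 + Y ^ 2 ≤ 3) ∧
      ∀ (v : ι → ℝ) (B : ℝ → ℝ), B 0 = 0 → AffOn (itpO v B |Y| (nodes |Y|)) a b := by
  set t := |Y| with htY
  have ht : 0 ≤ t := abs_nonneg Y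
  have ht2 : t ^ 2 = Y ^ 2 := sq_abs Y
  have ht3 : t ^ 2 ≤ 3 := by nlinarith [sq_nonneg X]
  rw [← ht2]
  rw [← ht2] at hl hu
  have hch := hN.chain t ht ht3
  have hnn := hN.nonneg t ht ht3
  have han := hN.ann t ht ht3
  obtain ⟨pt, hpt, hpt3⟩ := hN.top t ht ht3
  have hz := hN.zero t ht ht3
  -- nonnegative displacements
  have pos : ∀ X : ℝ, 0 ≤ X → 1 ≤ X ^ 2 + t ^ 2 → X ^ 2 + t ^ 2 ≤ 3 →
      ∃ a b : ℝ, a ≤ X ∧ X ≤ b ∧ NodeAt nodes a Y ∧ NodeAt nodes b Y ∧
      (∀ u, a ≤ u → u ≤ b → 1 ≤ u ^ 2 + t ^ 2 ∧ u ^ 2 + t ^ 2 ≤ 3) ∧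
      ∀ (v : ι → ℝ) (B : ℝ → ℝ), B 0 = 0 → AffOn (itpO v B t (nodes t)) a b := by
    intro X hX hl hu
    have hXt : X ≤ pt.1 := by
      refine le_of_sq_le_sq (by linarith) (hnn pt hpt)
    cases hL : nodes t with
    | nil => rw [hL] at hpt; simp at hpt
    | cons p0 L =>
      rw [hL] at hch hnn han hpt hz
      have hp0 : p0 ∈ p0 :: L := by simp
      -- the piece between two nodes
      have mid : ∀ p ∈ p0 :: L, ∀ q ∈ p0 :: L, p0.1 ≤ p.1 → p.1 ≤ X → X ≤ q.1 → p.1 < q.1 →
          (∀ (v : ι → ℝ) (w : ℝ), p.1 ≤ w → w ≤ q.1 →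
            itp v (p0 :: L) w = v p.2 + (v q.2 - v p.2) * ((w - p.1) / (q.1 - p.1))) →
          ∃ a b : ℝ, a ≤ X ∧ X ≤ b ∧ NodeAt nodes a Y ∧ NodeAt nodes b Y ∧
            (∀ u, a ≤ u → u ≤ b → 1 ≤ u ^ 2 + t ^ 2 ∧ u ^ 2 + t ^ 2 ≤ 3) ∧
            ∀ (v : ι → ℝ) (B : ℝ → ℝ), B 0 = 0 → AffOn (itpO v B t (p0 :: L)) a b := by
        intro p hp q hq e1 e2 e3 e4 e5
        have hp1 := hnn p hp
        have hq1 := hnn q hq
        refine ⟨p.1, q.1, e2, e3, ⟨p, by rw [← htY, hL]; exact hp, abs_of_nonneg hp1⟩,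
          ⟨q, by rw [← htY, hL]; exact hq, abs_of_nonneg hq1⟩, ?_, ?_⟩
        · intro u k1 k2
          have g1 := (han p hp).1
          have g2 := (han q hq).2
          constructor
          · nlinarith
          · nlinarith
        · intro v B _
          refine AffOn.congr (f := fun u => (v q.2 - v p.2) / (q.1 - p.1) * u +
            (v p.2 - (v q.2 - v p.2) / (q.1 - p.1) * p.1)) (AffOn.of_affine _ _) ?_
          intro u k1 k2
          have k3 : 0 ≤ u := by linarith
          have k4 : u ^ 2 + t ^ 2 ≤ 3 := by nlinarith [(han q hq).2]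
          unfold itpO
          rw [if_neg (by linarith)]
          unfold itpH
          rw [if_neg (by linarith)]
          simp only
          have e6 := e5 v u k1 k2
          split_ifs with h
          · have h1 : u = p0.1 := le_antisymm h (by linarith)
            have h2 : p0.1 ≠ 0 := by
              intro h3
              have h4 := hz p0 hp0 h3
              have h5 : q.1 = 0 := by
                have := (han q hq).2
                nlinarith
              linarith
            rw [h1] at e6 ⊢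
            rw [itp_head v hch] at e6
            rw [div_self h2, mul_one, e6]
            ring
          · rw [e6]
            ring
      rcases le_or_gt X p0.1 with h | h
      · rcases lt_or_ge t 1 with ht1 | ht1
        · -- at the first node
          obtain ⟨pb, hpb, hpb1⟩ := hN.bot t ht ht1
          rw [hL] at hpb
          have h1 : pb.1 ≤ X := by
            refine le_of_sq_le_sq (by linarith) hX
          have h2 : p0.1 ≤ pb.1 := by
            rcases List.mem_cons.1 hpb with h3 | h3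
            · rw [h3]
            · have hpw := hch.pairwise
              exact (List.rel_of_pairwise_cons hpw h3).le
          have h3 : X = p0.1 := le_antisymm h (h2.trans h1)
          cases hL2 : L with
          | nil =>
            rw [hL2] at hpt hpb
            rw [List.mem_singleton] at hpt hpb
            rw [hpt] at hpt3
            rw [hpb] at hpb1
            linarith
          | cons q L2 =>
            rw [hL2] at hch mid
            have hpq := (List.isChain_cons_cons.1 hch).1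
            rw [← hL2] at mid
            rw [← hL2]
            refine mid p0 hp0 q (by rw [hL2]; simp) le_rfl h3.ge (by linarith) hpq ?_
            intro v w k1 k2
            rw [hL2]
            unfold itp
            rw [if_pos k2]
        · have hp1 := hnn p0 hp0
          refine ⟨-p0.1, p0.1, by linarith, h, ⟨p0, by rw [← htY, hL]; exact hp0, by
            rw [abs_neg, abs_of_nonneg hp1]⟩, ⟨p0, by rw [← htY, hL]; exact hp0,
            abs_of_nonneg hp1⟩, ?_, ?_⟩
          · intro u k1 k2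
            have k3 := sq_le_sq' k1 k2
            constructor
            · nlinarith
            · linarith [(han p0 hp0).2]
          · intro v B _
            refine AffOn.congr (f := fun u => v p0.2 / p0.1 * u + 0) (AffOn.of_affine _ _) ?_
            intro u k1 k2
            have k3 := sq_le_sq' k1 k2
            have k4 := (han p0 hp0).2
            unfold itpO itpH
            simp only
            split_ifs with c1 c2 c3 c4
            · exfalso; nlinarith
            · ring
            · exfalso; linarith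
            · exfalso; nlinarith
            · ring
      · obtain ⟨p, hp, q, hq, e1, e2, e3, e4, e5⟩ := itp_piece hch h ⟨pt, hpt, hXt⟩
        exact mid p hp q hq e1 e2 e3 e4 e5
  rcases le_total 0 X with hX | hX
  · exact pos X hX hl hu
  · obtain ⟨a, b, h1, h2, h3, h4, h5, h6⟩ := pos (-X) (by linarith) (by rw [neg_sq]; exact hl)
      (by rw [neg_sq]; exact hu)
    refine ⟨-b, -a, by linarith, by linarith, ?_, ?_, ?_, ?_⟩
    · obtain ⟨p, hp, hp'⟩ := h4
      exact ⟨p, hp, by rw [abs_neg]; exact hp'⟩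
    · obtain ⟨p, hp, hp'⟩ := h3
      exact ⟨p, hp, by rw [abs_neg]; exact hp'⟩
    · intro u k1 k2
      have := h5 (-u) (by linarith) (by linarith)
      rwa [neg_sq] at this
    · intro v B hB
      exact (h6 v B hB).reflect (itpO_odd hN hB ht)

/-- **Criterion**: if for fixed heights `Q` is affine wherever all interpolated functions are
affine, it has pieces between the nodes. -/
theorem IsNodes.qpieces {nodes : ℝ → List (ℝ × ι)} (hN : IsNodes nodes) {Q : ℝ → ℝ → ℝ → ℝ}
    (h : ∀ y z a b : ℝ, (∀ (v : ι → ℝ) (B : ℝ → ℝ), B 0 = 0 →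
      AffOn (itpO v B |z - y| (nodes |z - y|)) a b) → AffOn (fun u => Q u y z) a b) :
    QPieces Q (fun X y z => NodeAt nodes X (z - y)) := by
  intro X y z hl hu
  obtain ⟨a, b, h1, h2, h3, h4, h5, h6⟩ := hN.piece hl hu
  exact ⟨a, b, h1, h2, h3, h4, h5, h y z a b h6⟩

end Pool.Agent.Strip051.LC
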