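import Pool.Agent.Strip051.Sweep.Final

/-! # Reduction of the local certificate to small triangles

`F` is an antisymmetric edge function which contains the area part.  If every positively oriented
triangle with sides in `[1, √3]` has flux at least `1 / 2`, if a triangle with two unit sides and a
third side in `[√3, 2]` has flux at most `1 / 2`, and if the acute triangles with a side at least
`√3` are good, then every positively oriented triangle with sides at least one and circumradius at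
most one is good.  Together with one inequality at the floor and the mirror symmetry this gives the
six inequalities of `Cells`. -/

namespace Pool.Agent.Strip051.LC

open Pool.Agent.StripNear Pool.Agent.Strip051.Sweep

/-- twice the signed area -/
def cr (p q r : Pt) : ℝ := (q.1 - p.1) * (r.2 - p.2) - (q.2 - p.2) * (r.1 - p.1)

/-- the square of the distance -/
def ds (p q : Pt) : ℝ := (q.1 - p.1) ^ 2 + (q.2 - p.2) ^ 2

theorem ds_comm (p q : Pt) : ds p q = ds q p := by
  unfold ds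
  ring

theorem cr_rot (p q r : Pt) : cr q r p = cr p q r := by
  unfold cr
  ring

theorem cr_swap (p q r : Pt) : cr q p r = -cr p q r := by
  unfold cr
  ring

theorem cr_sq (p q r : Pt) :
    cr p q r ^ 2 = ds p r * ds p q - ((ds p r + ds p q - ds q r) / 2) ^ 2 := by
  unfold cr ds
  ring

theorem sq_le_aux {x y : ℝ} (h : x ^ 2 ≤ y ^ 2) (hy : 0 ≤ y) : x ≤ y := by
  by_contra hcon
  push Not at hcon
  nlinarith

/-- The apex of the isosceles triangle with unit sides on the right of `p q`. -/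
theorem exists_apex {p q : Pt} (h3 : 3 ≤ ds p q) (h4 : ds p q ≤ 4) :
    ∃ (b : Pt) (ρ : ℝ), 0 ≤ ρ ∧ ρ ^ 2 * ds p q = 1 - ds p q / 4 ∧
      b.1 - p.1 = (q.1 - p.1) / 2 + ρ * (q.2 - p.2) ∧
      b.2 - p.2 = (q.2 - p.2) / 2 - ρ * (q.1 - p.1) := by
  have h0 : 0 < ds p q := by linarith
  refine ⟨(p.1 + ((q.1 - p.1) / 2 + √(1 / ds p q - 1 / 4) * (q.2 - p.2)),
    p.2 + ((q.2 - p.2) / 2 - √(1 / ds p q - 1 / 4) * (q.1 - p.1))), √(1 / ds p q - 1 / 4),
    Real.sqrt_nonneg _, ?_, by simp only; ring, by simp only; ring⟩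
  rw [Real.sq_sqrt]
  · field_simp
  · have : 1 / 4 ≤ 1 / ds p q := by
      apply one_div_le_one_div_of_le h0 h4
    linarith

/-- The hypotheses of the reduction. -/
structure Small (F : Pt → Pt → ℝ) : Prop where
  anti : ∀ a b, F b a = -F a b
  tri : ∀ p q r, 0 ≤ cr p q r → 1 ≤ ds p q → 1 ≤ ds q r → 1 ≤ ds p r → ds p q ≤ 3 →
    ds q r ≤ 3 → ds p r ≤ 3 → 1 / 2 ≤ F p q + F q r + F r p
  half : ∀ p q b, ds p b = 1 → ds q b = 1 → 3 ≤ ds p q → ds p q ≤ 4 → 0 ≤ cr q p b →
    F q p + F p b + F b q ≤ 1 / 2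
  acute : ∀ p q r, 0 ≤ cr p q r → 1 ≤ ds p r → 1 ≤ ds q r → 3 ≤ ds p q → ds p q ≤ 4 →
    ds p r ≤ ds p q → ds q r ≤ ds p q → ds p q ≤ ds p r + ds q r →
    1 / 2 ≤ F p q + F q r + F r p

/-- A long side and an obtuse angle: the outer apex of the long side. -/
theorem Small.obtuse {F : Pt → Pt → ℝ} (hF : Small F) {p q r o : Pt} {R : ℝ} (h1 : 1 ≤ ds p r)
    (h2 : 1 ≤ ds q r) (h3 : 3 ≤ ds p q) (h4 : ds p q ≤ 4) (h7 : ds p r + ds q r ≤ ds p q)
    (hop : ds p o = R) (hoq : ds q o = R) (hor : ds r o = R) (hR : R ≤ 1)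
    (hcr : 0 ≤ cr p q r) : 1 / 2 ≤ F p q + F q r + F r p := by
  have h0 : 0 < ds p q := by linarith
  obtain ⟨b, ρ, hρ, hρ2, hw1, hw2⟩ := exists_apex h3 h4
  have hds : ds p q = (q.1 - p.1) ^ 2 + (q.2 - p.2) ^ 2 := rfl
  have hb1 : b.1 = p.1 + ((q.1 - p.1) / 2 + ρ * (q.2 - p.2)) := by linarith
  have hb2 : b.2 = p.2 + ((q.2 - p.2) / 2 - ρ * (q.1 - p.1)) := by linarith
  have hpb : ds p b = 1 := by
    have e : ds p b = ds p q / 4 + ρ ^ 2 * ds p q := by
      rw [hds]
      unfold ds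
      rw [hw1, hw2]
      ring
    rw [e]
    linarith
  have hqb : ds q b = 1 := by
    have e : ds q b = ds p q / 4 + ρ ^ 2 * ds p q := by
      rw [hds]
      unfold ds
      rw [hb1, hb2]
      ring
    rw [e]
    linarith
  have hdv : (q.1 - p.1) * (r.1 - p.1) + (q.2 - p.2) * (r.2 - p.2) =
      (ds p r + ds p q - ds q r) / 2 := by
    unfold ds
    ring
  have hbr : ds b r = 1 - (ds p q - ds p r - ds q r) / 2 + 2 * ρ * cr p q r := by
    have e1 : ds b r = ds p r + ds p b - 2 * ((r.1 - p.1) * (b.1 - p.1) +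
        (r.2 - p.2) * (b.2 - p.2)) := by
      unfold ds
      ring
    have e2 : (r.1 - p.1) * (b.1 - p.1) + (r.2 - p.2) * (b.2 - p.2) =
        ((q.1 - p.1) * (r.1 - p.1) + (q.2 - p.2) * (r.2 - p.2)) / 2 - ρ * cr p q r := by
      rw [hw1, hw2]
      unfold cr
      ring
    rw [e1, e2, hdv, hpb]
    ring
  -- the circumcentre
  have hv : (q.1 - p.1) * (o.1 - p.1) + (q.2 - p.2) * (o.2 - p.2) = ds p q / 2 := by
    have : ds p o - ds q o = 0 := by rw [hop, hoq]; ring
    unfold ds at this ⊢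
    linarith
  have ha : 2 * ((r.1 - p.1) * (o.1 - p.1) + (r.2 - p.2) * (o.2 - p.2)) = ds p r := by
    have : ds p o - ds r o = 0 := by rw [hop, hor]; ring
    unfold ds at this ⊢
    linarith
  have hbr1 : 1 ≤ ds b r := by
    set K : ℝ := (q.1 - p.1) * (o.2 - p.2) - (q.2 - p.2) * (o.1 - p.1) with hK
    have k1 : K ^ 2 = ds p q * R - (ds p q / 2) ^ 2 := by
      rw [← hv, ← hop, hK]
      unfold ds
      ring
    have k2 : K ^ 2 ≤ (ρ * ds p q) ^ 2 := by
      rw [k1]
      nlinarith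
    have k3 : -(ρ * ds p q) ≤ K := by
      have := abs_le_of_sq_le_sq k2 (mul_nonneg hρ h0.le)
      exact (abs_le.1 this).1
    have k4 : ds p q * (ds p r + ds q r - ds p q) = 4 * K * cr p q r := by
      have e1 : ds p q * ((r.1 - p.1) * (o.1 - p.1) + (r.2 - p.2) * (o.2 - p.2)) =
          ((q.1 - p.1) * (r.1 - p.1) + (q.2 - p.2) * (r.2 - p.2)) *
          ((q.1 - p.1) * (o.1 - p.1) + (q.2 - p.2) * (o.2 - p.2)) + K * cr p q r := by
        rw [hK]
        unfold ds cr
        ring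
      rw [hv, hdv] at e1
      linear_combination 4 * e1 - 2 * ds p q * ha
    have k5 : 0 ≤ ds p q * (ds b r - 1) := by
      have e2 : ds p q * (ds b r - 1) = 2 * (K + ρ * ds p q) * cr p q r := by
        rw [hbr]
        linear_combination (1 / 2 : ℝ) * k4
      rw [e2]
      have k6 : 0 ≤ K + ρ * ds p q := by linarith
      positivity
    have k7 := nonneg_of_mul_nonneg_right k5 h0
    linarith
  have hbr3 : ds b r ≤ 3 := by
    have k1 : (ρ * cr p q r) ^ 2 ≤ 1 := by
      have e1 : cr p q r ^ 2 ≤ ds p r * ds p q := by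
        rw [cr_sq]
        nlinarith [sq_nonneg ((ds p r + ds p q - ds q r) / 2)]
      have e2 : (ρ * cr p q r) ^ 2 ≤ ρ ^ 2 * (ds p r * ds p q) := by
        rw [mul_pow]
        exact mul_le_mul_of_nonneg_left e1 (sq_nonneg ρ)
      have e3 : ρ ^ 2 * (ds p r * ds p q) = ds p r * (1 - ds p q / 4) := by
        rw [← hρ2]
        ring
      rw [e3] at e2
      nlinarith
    have k2 : ρ * cr p q r ≤ 1 := by nlinarith
    rw [hbr]
    linarith
  have e4 : cr p b r = cr p q r / 2 + ρ * ((ds p r + ds p q - ds q r) / 2) := by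
    rw [← hdv]
    unfold cr
    rw [hb1, hb2]
    ring
  have e5 : cr b q r = cr p q r / 2 + ρ * (ds p q - (ds p r + ds p q - ds q r) / 2) := by
    rw [← hdv, hds]
    unfold cr
    rw [hb1, hb2]
    ring
  have p1 : 0 ≤ cr p b r := by
    rw [e4]
    have : 0 ≤ ρ * ((ds p r + ds p q - ds q r) / 2) := mul_nonneg hρ (by linarith)
    linarith
  have p3 : 0 ≤ cr b q r := by
    rw [e5]
    have : 0 ≤ ρ * (ds p q - (ds p r + ds p q - ds q r) / 2) := mul_nonneg hρ (by linarith)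
    linarith
  have e6 : cr q p b = ρ * ds p q := by
    rw [hds]
    unfold cr
    rw [hb1, hb2]
    ring
  -- the two parts and the isosceles triangle
  have hbq : ds b q = 1 := by rw [ds_comm, hqb]
  have g1 := hF.tri b q r p3 hbq.ge h2 hbr1 (by rw [hbq]; norm_num) (by linarith) hbr3
  have g2 := hF.tri p b r p1 hpb.ge hbr1 h1 (by rw [hpb]; norm_num) hbr3 (by linarith)
  have g3 := hF.half p q b hpb hqb h3 h4 (by rw [e6]; positivity)
  have a1 := hF.anti b r
  have a2 := hF.anti p q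
  linarith

/-- The triangle inequality for all cells. -/
theorem Small.good {F : Pt → Pt → ℝ} (hF : Small F) {p q r o : Pt} {R : ℝ} (h1 : 1 ≤ ds p q)
    (h2 : 1 ≤ ds q r) (h3 : 1 ≤ ds p r) (hop : ds p o = R) (hoq : ds q o = R) (hor : ds r o = R)
    (hR : R ≤ 1) (hcr : 0 ≤ cr p q r) : 1 / 2 ≤ F p q + F q r + F r p := by
  have diam : ∀ a b : Pt, ds a o = R → ds b o = R → ds a b ≤ 4 := by
    intro a b ha hb
    have e : ds a b ≤ 2 * ds a o + 2 * ds b o := by
      unfold ds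
      nlinarith [sq_nonneg ((o.1 - a.1) + (o.1 - b.1)), sq_nonneg ((o.2 - a.2) + (o.2 - b.2))]
    rw [ha, hb] at e
    linarith
  have key : ∀ p q r : Pt, 0 ≤ cr p q r → 1 ≤ ds q r → 1 ≤ ds p r → ds p o = R → ds q o = R →
      ds r o = R → ds q r ≤ ds p q → ds p r ≤ ds p q → 1 / 2 ≤ F p q + F q r + F r p := by
    intro p q r k0 k1 k2 k3 k4 k5 k6 k7
    have k8 := diam p q k3 k4
    rcases le_total (ds p q) 3 with c | c
    · exact hF.tri p q r k0 (by linarith) k1 k2 c (by linarith) (by linarith)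
    rcases le_total (ds p q) (ds p r + ds q r) with c' | c'
    · exact hF.acute p q r k0 k2 k1 c k8 k7 k6 c'
    · exact hF.obtuse k2 k1 c k8 c' k3 k4 k5 hR k0
  rcases le_total (ds q r) (ds p q) with a | a
  · rcases le_total (ds p r) (ds p q) with b | b
    · exact key p q r hcr h2 h3 hop hoq hor a b
    · have := key r p q (by rw [← cr_rot]; exact hcr) h1 (by rw [ds_comm]; exact h2) hor hop hoq
        (by rw [ds_comm r p]; exact b) (by rw [ds_comm r q, ds_comm r p]; linarith)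
      linarith
  · rcases le_total (ds p r) (ds q r) with b | b
    · have := key q r p (by rw [cr_rot]; exact hcr) (by rw [ds_comm]; exact h3)
        (by rw [ds_comm]; exact h1) hoq hor hop
        (by rw [ds_comm r p]; exact b) (by rw [ds_comm q p]; exact a)
      linarith
    · have := key r p q (by rw [← cr_rot]; exact hcr) h1 (by rw [ds_comm]; exact h2) hor hop hoq
        (by rw [ds_comm r p]; linarith) (by rw [ds_comm r q, ds_comm r p]; exact b)
      linarith

/-! ### From triangles and pairs at the floor to the cells -/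

/-- The mirror image in the middle line of the strip. -/
def mir (H : ℝ) (p : Pt) : Pt := (p.1, H - p.2)

/-- A symmetric local certificate. -/
structure Sym (H w : ℝ) (F : Pt → Pt → ℝ) : Prop where
  anti : ∀ a b, F b a = -F a b
  mirror : ∀ a b, F (mir H a) (mir H b) = F b a
  tri : ∀ p q r o R, 0 ≤ cr p q r → 1 ≤ ds p q → 1 ≤ ds q r → 1 ≤ ds p r → ds p o = R →
    ds q o = R → ds r o = R → R ≤ 1 → 1 / 2 ≤ F p q + F q r + F r p
  wall : ∀ (p q : Pt) (m : ℝ), p.1 ≤ q.1 → 0 ≤ p.2 → 0 ≤ q.2 → 1 ≤ ds p q →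
    (p.1 - m) ^ 2 + p.2 ^ 2 = (q.1 - m) ^ 2 + q.2 ^ 2 → (p.1 - m) ^ 2 + p.2 ^ 2 ≤ 1 →
    1 / 2 ≤ w * (q.1 - p.1) + F q p

theorem tri_chord {α1 α2 β1 β2 γ1 γ2 R : ℝ} (ha : α1 ^ 2 + α2 ^ 2 = R) (hb : β1 ^ 2 + β2 ^ 2 = R)
    (hc : γ1 ^ 2 + γ2 ^ 2 = R) (h1 : α2 ≤ β2) (h2 : β2 ≤ γ2) (h : 0 ≤ β1) :
    0 ≤ (β1 - α1) * (γ2 - α2) - (β2 - α2) * (γ1 - α1) := by
  have hl : 0 ≤ γ2 - β2 := by linarith
  have hm : 0 ≤ β2 - α2 := by linarith
  have e : (β1 - α1) * (γ2 - α2) - (β2 - α2) * (γ1 - α1) =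
      ((γ2 - β2) + (β2 - α2)) * β1 - ((γ2 - β2) * α1 + (β2 - α2) * γ1) := by ring
  rw [e]
  have h3 : ((γ2 - β2) * α1 + (β2 - α2) * γ1) ^ 2 ≤ (((γ2 - β2) + (β2 - α2)) * β1) ^ 2 := by
    have e1 : ((γ2 - β2) * α1 + (β2 - α2) * γ1) ^ 2 + ((γ2 - β2) * α2 + (β2 - α2) * γ2) ^ 2 =
        ((γ2 - β2) + (β2 - α2)) ^ 2 * R - (γ2 - β2) * (β2 - α2) *
          ((α1 - γ1) ^ 2 + (α2 - γ2) ^ 2) := by
      linear_combination ((γ2 - β2) ^ 2 + (γ2 - β2) * (β2 - α2)) * ha +
        ((β2 - α2) ^ 2 + (γ2 - β2) * (β2 - α2)) * hc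
    have e2 : (γ2 - β2) * α2 + (β2 - α2) * γ2 = ((γ2 - β2) + (β2 - α2)) * β2 := by ring
    rw [e2] at e1
    have h4 : 0 ≤ (γ2 - β2) * (β2 - α2) * ((α1 - γ1) ^ 2 + (α2 - γ2) ^ 2) :=
      mul_nonneg (mul_nonneg hl hm) (by positivity)
    have e3 : (((γ2 - β2) + (β2 - α2)) * β1) ^ 2 =
        ((γ2 - β2) + (β2 - α2)) ^ 2 * R - (((γ2 - β2) + (β2 - α2)) * β2) ^ 2 := by
      rw [← hb]
      ring
    linarith
  have h5 : 0 ≤ ((γ2 - β2) + (β2 - α2)) * β1 := mul_nonneg (by linarith) h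
  have := sq_le_aux h3 h5
  linarith

theorem cr_nonneg_of_Tri {H : ℝ} {a b c : Pt} {m z : ℝ} (h : Tri H a b c m z)
    (hm : m < b.1) : 0 ≤ cr a b c := by
  have h1 := h.eab
  have h2 := h.ebc
  unfold dq at h1 h2
  have := tri_chord (α1 := a.1 - m) (α2 := a.2 - z) (β1 := b.1 - m) (β2 := b.2 - z)
    (γ1 := c.1 - m) (γ2 := c.2 - z) (R := (m - b.1) ^ 2 + (z - b.2) ^ 2)
    (by linarith) (by ring) (by linarith) (by linarith [h.hab.le]) (by linarith [h.hbc.le])
    (by linarith)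
  unfold cr
  linarith

theorem cr_nonpos_of_Tri {H : ℝ} {a b c : Pt} {m z : ℝ} (h : Tri H a b c m z)
    (hm : b.1 < m) : cr a b c ≤ 0 := by
  have h1 := h.eab
  have h2 := h.ebc
  unfold dq at h1 h2
  have := tri_chord (α1 := m - a.1) (α2 := a.2 - z) (β1 := m - b.1) (β2 := b.2 - z)
    (γ1 := m - c.1) (γ2 := c.2 - z) (R := (m - b.1) ^ 2 + (z - b.2) ^ 2)
    (by linarith) (by ring) (by linarith) (by linarith [h.hab.le]) (by linarith [h.hbc.le])
    (by linarith)
  unfold cr
  linarith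

theorem Sym.cells {H w : ℝ} {F : Pt → Pt → ℝ} (hF : Sym H w F) :
    Cells H F (fun a => w * a.1) (fun a => w * a.1) := by
  have e1 : ∀ (p : Pt) (m z : ℝ), ds p (m, z) = dq p m z := by
    intro p m z
    unfold ds dq
    simp only
  have e2 : ∀ p q : Pt, ds p q = Pool.Agent.Strip051.Sweep.sq p q := by
    intro p q
    unfold ds Pool.Agent.Strip051.Sweep.sq
    ring
  refine ⟨?_, ?_, ?_, ?_, ?_, ?_⟩
  · intro a b c m z h hm
    have h1 := hF.tri a b c (m, z) (dq b m z) (cr_nonneg_of_Tri h hm) (by rw [e2]; exact h.sab)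
      (by rw [e2]; exact h.sbc) (by rw [e2]; exact h.sac) (by rw [e1]; exact h.eab) (e1 b m z)
      (by rw [e1]; exact h.ebc.symm) h.rad
    have h2 := hF.anti a c
    linarith
  · intro a b c m z h hm
    have h0 := cr_nonpos_of_Tri h hm
    have h1 := hF.tri c b a (m, z) (dq b m z)
      (by rw [cr_swap, cr_rot]; linarith) (by rw [e2, ← e2, ds_comm, e2]; exact h.sbc)
      (by rw [ds_comm, e2]; exact h.sab) (by rw [ds_comm, e2]; exact h.sac)
      (by rw [e1]; exact h.ebc.symm) (e1 b m z) (by rw [e1]; exact h.eab) h.rad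
    have h2 := hF.anti a b
    have h3 := hF.anti b c
    linarith
  · intro b a m h hm
    have hY : b.2 ≤ a.2 := h.hab.le
    have hb0 : 0 ≤ b.2 := h.ha0
    have he := h.eab
    have hr := h.rad
    unfold dq at he hr
    have hX : a.1 ≤ b.1 := by nlinarith
    have := hF.wall a b m hX (by linarith) hb0 (by rw [ds_comm, e2]; exact h.sab)
      (by nlinarith) (by nlinarith)
    linarith
  · intro b a m h hm
    have hY : b.2 ≤ a.2 := h.hab.le
    have hb0 : 0 ≤ b.2 := h.ha0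
    have he := h.eab
    have hr := h.rad
    unfold dq at he hr
    have hX : b.1 ≤ a.1 := by nlinarith
    have := hF.wall b a m hX hb0 (by linarith) (by rw [e2]; exact h.sab)
      (by nlinarith) (by nlinarith)
    have h2 := hF.anti a b
    linarith
  · intro a b m h hm
    have hY : a.2 ≤ b.2 := h.hab.le
    have hb0 : b.2 ≤ H := h.hbH
    have he := h.eab
    have hr := h.rad
    have hs := h.sab
    rw [← e2] at hs
    unfold dq at he hr
    have hX : a.1 ≤ b.1 := by nlinarith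
    have := hF.wall (mir H a) (mir H b) m hX (by unfold mir; simp only; linarith)
      (by unfold mir; simp only; linarith)
      (by unfold mir ds at *; simp only; linarith)
      (by unfold mir; simp only; nlinarith) (by unfold mir; simp only; nlinarith)
    rw [hF.mirror] at this
    unfold mir at this
    simp only at this ⊢
    linarith
  · intro a b m h hm
    have hY : a.2 ≤ b.2 := h.hab.le
    have hb0 : b.2 ≤ H := h.hbH
    have he := h.eab
    have hr := h.rad
    have hs := h.sab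
    rw [← e2] at hs
    unfold dq at he hr
    have hX : b.1 ≤ a.1 := by nlinarith
    have := hF.wall (mir H b) (mir H a) m hX (by unfold mir; simp only; linarith)
      (by unfold mir; simp only; linarith)
      (by unfold mir ds at *; simp only; linarith)
      (by unfold mir; simp only; nlinarith) (by unfold mir; simp only; nlinarith)
    rw [hF.mirror] at this
    have h2 := hF.anti a b
    unfold mir at this
    simp only at this ⊢
    linarith

/-- The count from a symmetric local certificate. -/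
theorem Sym.count {H w K : ℝ} (hH : 0 ≤ H) {F : Pt → Pt → ℝ} (hF : Sym H w F)
    (hK : ∀ a b : Pt, |a.1 - b.1| ≤ 2 → 0 ≤ a.2 → a.2 ≤ H → 0 ≤ b.2 → b.2 ≤ H → |F a b| ≤ K)
    (hK0 : 0 ≤ K) :
    ∃ C : ℝ, ∀ L : ℝ, 0 ≤ L → ∀ X : Finset Pt, UnitSep X → (∀ p ∈ X, 0 ≤ p.1 ∧ p.1 ≤ L) →
      InStrip H X → (X.card : ℝ) ≤ 2 * w * L + C := by
  obtain ⟨C, hC⟩ := Sweep.count hH hF.cells hK (w := w) (w' := w)
    (fun a _ _ => by simp only [sub_self, abs_zero]; exact hK0)
    (fun a _ _ => by simp only [sub_self, abs_zero]; exact hK0)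
  refine ⟨C, fun L h0 X h1 h2 h3 => ?_⟩
  have := hC L h0 X h1 h2 h3
  linarith

end Pool.Agent.Strip051.LC
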