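import Pool.Agent.Strip051.LC.Corner

/-! # The reduction to small triangles with strict conditions

The same as `Small`, but the conditions on long edges are only used for edges longer than `√3`. -/

namespace Pool.Agent.Strip051.LC

open Pool.Agent.StripNear Pool.Agent.StripSquare Pool.Agent.Strip051.Sweep

/-- The hypotheses of the reduction; nothing is assumed about isosceles triangles with a side `√3`
besides `tri`. -/
structure SmallS (F : Pt → Pt → ℝ) : Prop where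
  anti : ∀ a b, F b a = -F a b
  tri : ∀ p q r, 0 ≤ cr p q r → 1 ≤ ds p q → 1 ≤ ds q r → 1 ≤ ds p r → ds p q ≤ 3 →
    ds q r ≤ 3 → ds p r ≤ 3 → 1 / 2 ≤ F p q + F q r + F r p
  half : ∀ p q b, ds p b = 1 → ds q b = 1 → 3 < ds p q → ds p q ≤ 4 → 0 ≤ cr q p b →
    F q p + F p b + F b q ≤ 1 / 2
  acute : ∀ (p q r o : Pt) (R : ℝ), 0 ≤ cr p q r → 1 ≤ ds p r → 1 ≤ ds q r → 3 < ds p q →
    ds p q ≤ 4 → ds p r ≤ ds p q → ds q r ≤ ds p q → ds p q ≤ ds p r + ds q r → ds p o = R →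
    ds q o = R → ds r o = R → R ≤ 1 → 1 / 2 ≤ F p q + F q r + F r p

/-- A long side and an obtuse angle: the outer apex of the long side. -/
theorem SmallS.obtuse {F : Pt → Pt → ℝ} (hF : SmallS F) {p q r o : Pt} {R : ℝ} (h1 : 1 ≤ ds p r)
    (h2 : 1 ≤ ds q r) (h3 : 3 < ds p q) (h4 : ds p q ≤ 4) (h7 : ds p r + ds q r ≤ ds p q)
    (hop : ds p o = R) (hoq : ds q o = R) (hor : ds r o = R) (hR : R ≤ 1)
    (hcr : 0 ≤ cr p q r) : 1 / 2 ≤ F p q + F q r + F r p := by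
  have h0 : 0 < ds p q := by linarith
  obtain ⟨b, ρ, hρ, hρ2, hw1, hw2⟩ := exists_apex h3.le h4
  have hds : ds p q = (q.1 - p.1) ^ 2 + (q.2 - p.2) ^ 2 := rfl
  have hb1 : b.1 = p.1 + ((q.1 - p.1) / 2 + ρ * (q.2 - p.2)) := by linarith
  have hb2 : b.2 = p.2 + ((q.2 - p.2) / 2 - ρ * (q.1 - p.1)) := by linarith
  have hpb : ds p b = 1 := by
    have e : ds p b = ds p q / 4 + ρ ^ 2 * ds p q := by
      rw [hds]
      unfold ds
      rw [hw1, hw2]
      ring
    rw [e]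
    linarith
  have hqb : ds q b = 1 := by
    have e : ds q b = ds p q / 4 + ρ ^ 2 * ds p q := by
      rw [hds]
      unfold ds
      rw [hb1, hb2]
      ring
    rw [e]
    linarith
  have hdv : (q.1 - p.1) * (r.1 - p.1) + (q.2 - p.2) * (r.2 - p.2) =
      (ds p r + ds p q - ds q r) / 2 := by
    unfold ds
    ring
  have hbr : ds b r = 1 - (ds p q - ds p r - ds q r) / 2 + 2 * ρ * cr p q r := by
    have e1 : ds b r = ds p r + ds p b - 2 * ((r.1 - p.1) * (b.1 - p.1) +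
        (r.2 - p.2) * (b.2 - p.2)) := by
      unfold ds
      ring
    have e2 : (r.1 - p.1) * (b.1 - p.1) + (r.2 - p.2) * (b.2 - p.2) =
        ((q.1 - p.1) * (r.1 - p.1) + (q.2 - p.2) * (r.2 - p.2)) / 2 - ρ * cr p q r := by
      rw [hw1, hw2]
      unfold cr
      ring
    rw [e1, e2, hdv, hpb]
    ring
  -- the circumcentre
  have hv : (q.1 - p.1) * (o.1 - p.1) + (q.2 - p.2) * (o.2 - p.2) = ds p q / 2 := by
    have : ds p o - ds q o = 0 := by rw [hop, hoq]; ring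
    unfold ds at this ⊢
    linarith
  have ha : 2 * ((r.1 - p.1) * (o.1 - p.1) + (r.2 - p.2) * (o.2 - p.2)) = ds p r := by
    have : ds p o - ds r o = 0 := by rw [hop, hor]; ring
    unfold ds at this ⊢
    linarith
  have hbr1 : 1 ≤ ds b r := by
    set K : ℝ := (q.1 - p.1) * (o.2 - p.2) - (q.2 - p.2) * (o.1 - p.1) with hK
    have k1 : K ^ 2 = ds p q * R - (ds p q / 2) ^ 2 := by
      rw [← hv, ← hop, hK]
      unfold ds
      ring
    have k2 : K ^ 2 ≤ (ρ * ds p q) ^ 2 := by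
      rw [k1]
      nlinarith
    have k3 : -(ρ * ds p q) ≤ K := by
      have := abs_le_of_sq_le_sq k2 (mul_nonneg hρ h0.le)
      exact (abs_le.1 this).1
    have k4 : ds p q * (ds p r + ds q r - ds p q) = 4 * K * cr p q r := by
      have e1 : ds p q * ((r.1 - p.1) * (o.1 - p.1) + (r.2 - p.2) * (o.2 - p.2)) =
          ((q.1 - p.1) * (r.1 - p.1) + (q.2 - p.2) * (r.2 - p.2)) *
          ((q.1 - p.1) * (o.1 - p.1) + (q.2 - p.2) * (o.2 - p.2)) + K * cr p q r := by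
        rw [hK]
        unfold ds cr
        ring
      rw [hv, hdv] at e1
      linear_combination 4 * e1 - 2 * ds p q * ha
    have k5 : 0 ≤ ds p q * (ds b r - 1) := by
      have e2 : ds p q * (ds b r - 1) = 2 * (K + ρ * ds p q) * cr p q r := by
        rw [hbr]
        linear_combination (1 / 2 : ℝ) * k4
      rw [e2]
      have k6 : 0 ≤ K + ρ * ds p q := by linarith
      positivity
    have k7 := nonneg_of_mul_nonneg_right k5 h0
    linarith
  have hbr3 : ds b r ≤ 3 := by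
    have k1 : (ρ * cr p q r) ^ 2 ≤ 1 := by
      have e1 : cr p q r ^ 2 ≤ ds p r * ds p q := by
        rw [cr_sq]
        nlinarith [sq_nonneg ((ds p r + ds p q - ds q r) / 2)]
      have e2 : (ρ * cr p q r) ^ 2 ≤ ρ ^ 2 * (ds p r * ds p q) := by
        rw [mul_pow]
        exact mul_le_mul_of_nonneg_left e1 (sq_nonneg ρ)
      have e3 : ρ ^ 2 * (ds p r * ds p q) = ds p r * (1 - ds p q / 4) := by
        rw [← hρ2]
        ring
      rw [e3] at e2
      nlinarith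
    have k2 : ρ * cr p q r ≤ 1 := by nlinarith
    rw [hbr]
    linarith
  have e4 : cr p b r = cr p q r / 2 + ρ * ((ds p r + ds p q - ds q r) / 2) := by
    rw [← hdv]
    unfold cr
    rw [hb1, hb2]
    ring
  have e5 : cr b q r = cr p q r / 2 + ρ * (ds p q - (ds p r + ds p q - ds q r) / 2) := by
    rw [← hdv, hds]
    unfold cr
    rw [hb1, hb2]
    ring
  have p1 : 0 ≤ cr p b r := by
    rw [e4]
    have : 0 ≤ ρ * ((ds p r + ds p q - ds q r) / 2) := mul_nonneg hρ (by linarith)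
    linarith
  have p3 : 0 ≤ cr b q r := by
    rw [e5]
    have : 0 ≤ ρ * (ds p q - (ds p r + ds p q - ds q r) / 2) := mul_nonneg hρ (by linarith)
    linarith
  have e6 : cr q p b = ρ * ds p q := by
    rw [hds]
    unfold cr
    rw [hb1, hb2]
    ring
  -- the two parts and the isosceles triangle
  have hbq : ds b q = 1 := by rw [ds_comm, hqb]
  have g1 := hF.tri b q r p3 hbq.ge h2 hbr1 (by rw [hbq]; norm_num) (by linarith) hbr3
  have g2 := hF.tri p b r p1 hpb.ge hbr1 h1 (by rw [hpb]; norm_num) hbr3 (by linarith)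
  have g3 := hF.half p q b hpb hqb h3 h4 (by rw [e6]; positivity)
  have a1 := hF.anti b r
  have a2 := hF.anti p q
  linarith

/-- The triangle inequality for all cells. -/
theorem SmallS.good {F : Pt → Pt → ℝ} (hF : SmallS F) {p q r o : Pt} {R : ℝ} (h1 : 1 ≤ ds p q)
    (h2 : 1 ≤ ds q r) (h3 : 1 ≤ ds p r) (hop : ds p o = R) (hoq : ds q o = R) (hor : ds r o = R)
    (hR : R ≤ 1) (hcr : 0 ≤ cr p q r) : 1 / 2 ≤ F p q + F q r + F r p := by
  have diam : ∀ a b : Pt, ds a o = R → ds b o = R → ds a b ≤ 4 := by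
    intro a b ha hb
    have e : ds a b ≤ 2 * ds a o + 2 * ds b o := by
      unfold ds
      nlinarith [sq_nonneg ((o.1 - a.1) + (o.1 - b.1)), sq_nonneg ((o.2 - a.2) + (o.2 - b.2))]
    rw [ha, hb] at e
    linarith
  have key : ∀ p q r : Pt, 0 ≤ cr p q r → 1 ≤ ds q r → 1 ≤ ds p r → ds p o = R → ds q o = R →
      ds r o = R → ds q r ≤ ds p q → ds p r ≤ ds p q → 1 / 2 ≤ F p q + F q r + F r p := by
    intro p q r k0 k1 k2 k3 k4 k5 k6 k7
    have k8 := diam p q k3 k4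
    rcases le_or_gt (ds p q) 3 with c | c
    · exact hF.tri p q r k0 (by linarith) k1 k2 c (by linarith) (by linarith)
    rcases le_total (ds p q) (ds p r + ds q r) with c' | c'
    · exact hF.acute p q r o R k0 k2 k1 c k8 k7 k6 c' k3 k4 k5 hR
    · exact hF.obtuse k2 k1 c k8 c' k3 k4 k5 hR k0
  rcases le_total (ds q r) (ds p q) with a | a
  · rcases le_total (ds p r) (ds p q) with b | b
    · exact key p q r hcr h2 h3 hop hoq hor a b
    · have := key r p q (by rw [← cr_rot]; exact hcr) h1 (by rw [ds_comm]; exact h2) hor hop hoq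
        (by rw [ds_comm r p]; exact b) (by rw [ds_comm r q, ds_comm r p]; linarith)
      linarith
  · rcases le_total (ds p r) (ds q r) with b | b
    · have := key q r p (by rw [cr_rot]; exact hcr) (by rw [ds_comm]; exact h3)
        (by rw [ds_comm]; exact h1) hoq hor hop
        (by rw [ds_comm r p]; exact b) (by rw [ds_comm q p]; exact a)
      linarith
    · have := key r p q (by rw [← cr_rot]; exact hcr) h1 (by rw [ds_comm]; exact h2) hor hop hoq
        (by rw [ds_comm r p]; linarith) (by rw [ds_comm r q, ds_comm r p]; exact b)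
      linarith


/-- The hypotheses on the flux: `Bulk` with strict conditions. -/
structure BulkS (Q : ℝ → ℝ → ℝ → ℝ) : Prop where
  anti : ∀ X y z, Q (-X) z y = -Q X y z
  tri : ∀ p q r : Pt, 0 ≤ cr p q r → 1 ≤ ds p q → 1 ≤ ds q r → 1 ≤ ds p r → ds p q ≤ 3 →
    ds q r ≤ 3 → ds p r ≤ 3 → 1 / 2 ≤ cr p q r / (2 * h0) + fl Q p q r
  half : ∀ p q b : Pt, ds p b = 1 → ds q b = 1 → 3 < ds p q → ds p q ≤ 4 → 0 ≤ cr q p b →
    cr q p b / (2 * h0) + fl Q q p b ≤ 1 / 2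
  acute : ∀ (p q r o : Pt) (R : ℝ), 0 ≤ cr p q r → 1 ≤ ds p r → 1 ≤ ds q r → 3 < ds p q →
    ds p q ≤ 4 → ds p r ≤ ds p q → ds q r ≤ ds p q → ds p q ≤ ds p r + ds q r → ds p o = R →
    ds q o = R → ds r o = R → R ≤ 1 → 1 / 2 ≤ cr p q r / (2 * h0) + fl Q p q r

theorem Bulk.strict {Q : ℝ → ℝ → ℝ → ℝ} (hQ : Bulk Q) : BulkS Q :=
  ⟨hQ.anti, hQ.tri, fun p q b h1 h2 h3 => hQ.half p q b h1 h2 h3.le,
    fun p q r _ _ h0 h1 h2 h3 h4 h5 h6 h7 _ _ _ _ => hQ.acute p q r h0 h1 h2 h3.le h4 h5 h6 h7⟩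

theorem BulkS.small {Q : ℝ → ℝ → ℝ → ℝ} (hQ : BulkS Q) (H : ℝ) : SmallS (FQ H Q) := by
  refine ⟨?_, ?_, ?_, ?_⟩
  · intro a b
    have := hQ.anti (b.1 - a.1) a.2 b.2
    unfold FQ ed
    rw [show a.1 - b.1 = -(b.1 - a.1) by ring, this]
    ring
  · intro p q r h0 h1 h2 h3 h4 h5 h6
    rw [FQ_tri]
    exact hQ.tri p q r h0 h1 h2 h3 h4 h5 h6
  · intro p q b h1 h2 h3 h4 h5
    rw [FQ_tri]
    exact hQ.half p q b h1 h2 h3 h4 h5
  · intro p q r o R h0 h1 h2 h3 h4 h5 h6 h7 h8 h9 h10 h11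
    rw [FQ_tri]
    exact hQ.acute p q r o R h0 h1 h2 h3 h4 h5 h6 h7 h8 h9 h10 h11

theorem BulkS.sym_of {H w : ℝ} {Q : ℝ → ℝ → ℝ → ℝ} (hQ : BulkS Q) (hw : Floor H w Q) :
    Sym H w (FQ H Q) := by
  have hs := hQ.small H
  refine ⟨hs.anti, ?_, ?_, ?_⟩
  · intro a b
    have h1 := hQ.anti (b.1 - a.1) a.2 b.2
    have h2 := hw.mirror (b.1 - a.1) a.2 b.2
    unfold FQ ed mir
    simp only
    rw [h2, show a.1 - b.1 = -(b.1 - a.1) by ring, h1]
    ring
  · intro p q r o R h0 h1 h2 h3 h4 h5 h6 h7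
    exact hs.good h1 h2 h3 h4 h5 h6 h7 h0
  · intro p q m h1 h2 h3 h4 h5 h6
    have h7 := hw.wall p q m h1 h2 h3 h4 h5 h6
    have h8 := hs.anti p q
    rw [h8]
    unfold FQ
    have h9 : w * (q.1 - p.1) + -(-((q.1 - p.1) * (p.2 + q.2 - H)) / (2 * h0) + ed Q p q) =
        (q.1 - p.1) * (w + (p.2 + q.2 - H) / (2 * h0)) - ed Q p q := by ring
    rw [h9]
    exact h7

/-- The count. -/
theorem BulkS.count_of {H w K : ℝ} (hH : 0 ≤ H) {Q : ℝ → ℝ → ℝ → ℝ} (hQ : BulkS Q) (hw : Floor H w Q)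
    (hK : ∀ X y z : ℝ, |X| ≤ 2 → 0 ≤ y → y ≤ H → 0 ≤ z → z ≤ H → |Q X y z| ≤ K) :
    ∃ C : ℝ, ∀ L : ℝ, 0 ≤ L → ∀ X : Finset Pt, UnitSep X → (∀ p ∈ X, 0 ≤ p.1 ∧ p.1 ≤ L) →
      InStrip H X → (X.card : ℝ) ≤ 2 * w * L + C := by
  have hh := h0_pos
  have hK0 : 0 ≤ K := (abs_nonneg _).trans (hK 0 0 0 (by simp) le_rfl hH le_rfl hH)
  refine (hQ.sym_of hw).count hH (K := H / h0 + K) ?_ (by positivity)
  intro a b hab ha0 haH hb0 hbH
  unfold FQ
  refine (abs_add_le _ _).trans ?_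
  have h1 : |-((b.1 - a.1) * (a.2 + b.2 - H)) / (2 * h0)| ≤ H / h0 := by
    have e1 : |a.2 + b.2 - H| ≤ H := by
      rw [abs_le]
      constructor <;> linarith
    rw [abs_div, abs_neg, abs_mul, abs_of_pos (by linarith : 0 < 2 * h0),
      div_le_div_iff₀ (by linarith) hh, abs_sub_comm]
    have e2 : |a.1 - b.1| * |a.2 + b.2 - H| ≤ 2 * H :=
      mul_le_mul hab e1 (abs_nonneg _) (by norm_num)
    calc |a.1 - b.1| * |a.2 + b.2 - H| * h0 ≤ 2 * H * h0 := mul_le_mul_of_nonneg_right e2 hh.le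
      _ = H * (2 * h0) := by ring
  have h2 : |ed Q a b| ≤ K := by
    unfold ed
    exact hK _ _ _ (by rw [abs_sub_comm]; exact hab) ha0 haH hb0 hbH
  linarith

/-- The density bound: a certificate for the strip of width `W` with `w = H / (2 h0) + 1/2 - δ`. -/
theorem BulkS.density_of {W δ K : ℝ} (hW : 2 ≤ W) {Q : ℝ → ℝ → ℝ → ℝ} (hQ : BulkS Q)
    (hw : Floor ((W - 2) / 2) ((W - 2) / 2 / (2 * h0) + 1 / 2 - δ) Q)
    (hK : ∀ X y z : ℝ, |X| ≤ 2 → 0 ≤ y → y ≤ (W - 2) / 2 → 0 ≤ z → z ≤ (W - 2) / 2 →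
      |Q X y z| ≤ K) {C : Set E2} (hC : IsStripPacking W C) {O : E2} {d : ℝ}
    (hd : HasDensity W C O d) :
    d ≤ Real.pi / (2 * W) * (1 + (W - 2) / Real.sqrt 3 - 2 * δ) := by
  obtain ⟨C0, h⟩ := hQ.count_of (by linarith) hw hK
  have h1 := density_le hW h hC hd
  have h3 : 0 < Real.sqrt 3 := Real.sqrt_pos.2 (by norm_num)
  have e1 : 2 * ((W - 2) / 2 / (2 * h0) + 1 / 2 - δ) = 1 + (W - 2) / Real.sqrt 3 - 2 * δ := by
    unfold h0
    field_simp
    ring
  rw [e1] at h1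
  calc d ≤ _ := h1
    _ = _ := by ring

end Pool.Agent.Strip051.LC
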