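import Pool.Agent.Strip051.LC.Corner

/-! # A flux with three nodes

For fixed heights the flux is piecewise affine in the horizontal displacement with nodes at the
lengths `1`, `√2`, `√3`.  The triangle inequality then reduces to six families of triangles, two
sides of which have one of these lengths. -/

namespace Pool.Agent.Strip051.LC

open Pool.Agent.StripNear Pool.Agent.Strip051.Sweep

/-- the nodes: the length of the edge is `1`, `√2` or `√3` -/
def N3 (X y z : ℝ) : Prop :=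
  X ^ 2 + (z - y) ^ 2 = 1 ∨ X ^ 2 + (z - y) ^ 2 = 2 ∨ X ^ 2 + (z - y) ^ 2 = 3

/-- Interpolation for `0 ≤ X`; `t` is the square of the difference of the heights, `a1`, `a2`, `a3`
are the values at the nodes and `b` is the value beyond. -/
noncomputable def P3 (a1 a2 a3 b t X : ℝ) : ℝ :=
  if 3 < X ^ 2 + t then b
  else if 2 ≤ t then a3 * (X / √(3 - t))
  else if 2 ≤ X ^ 2 + t then a2 + (a3 - a2) * ((X - √(2 - t)) / (√(3 - t) - √(2 - t)))
  else if 1 ≤ t then a2 * (X / √(2 - t))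
  else if 1 ≤ X ^ 2 + t then a1 + (a2 - a1) * ((X - √(1 - t)) / (√(2 - t) - √(1 - t)))
  else a1 * (X / √(1 - t))

/-- The flux with three nodes: `a1`, `a2`, `a3` are the values at the nodes on the right as
functions of the two heights, `b` is the value for edges longer than `√3`. -/
noncomputable def Q3 (a1 a2 a3 : ℝ → ℝ → ℝ) (b : ℝ → ℝ → ℝ → ℝ) (X y z : ℝ) : ℝ :=
  if X < 0 then -P3 (a1 y z) (a2 y z) (a3 y z) (b (-X) y z) ((z - y) ^ 2) (-X)
  else P3 (a1 y z) (a2 y z) (a3 y z) (b X y z) ((z - y) ^ 2) X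

section

variable {a1 a2 a3 : ℝ → ℝ → ℝ} {b : ℝ → ℝ → ℝ → ℝ}

theorem P3_zero {α β γ t : ℝ} {d : ℝ} (hd : 3 < t → d = 0) :
    P3 α β γ d t 0 = 0 := by
  unfold P3
  simp only [ne_eq, OfNat.ofNat_ne_zero, not_false_eq_true, zero_pow, zero_add, zero_div, mul_zero]
  split_ifs with h1 h2 h3 <;> first | exact hd h1 | rfl

/-- `Q3` is odd in the displacement. -/
theorem Q3_odd (hb : ∀ y z, b 0 y z = 0) (X y z : ℝ) :
    Q3 a1 a2 a3 b (-X) y z = -Q3 a1 a2 a3 b X y z := by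
  unfold Q3
  rcases lt_trichotomy X 0 with h | h | h
  · rw [if_neg (by linarith), if_pos h, neg_neg]
  · subst h
    rw [neg_zero, if_neg (lt_irrefl _), P3_zero (fun _ => hb y z), if_neg (lt_irrefl _), neg_zero]
  · rw [if_pos (by linarith), if_neg (by linarith), neg_neg]

theorem Q3_symm (h1 : ∀ y z, a1 z y = a1 y z) (h2 : ∀ y z, a2 z y = a2 y z)
    (h3 : ∀ y z, a3 z y = a3 y z) (h4 : ∀ X y z, b X z y = b X y z) (X y z : ℝ) :
    Q3 a1 a2 a3 b X z y = Q3 a1 a2 a3 b X y z := by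
  unfold Q3
  rw [h1, h2, h3, h4 (-X), h4 X, show (y - z) ^ 2 = (z - y) ^ 2 by ring]

/-- the field `anti` of `Bulk` -/
theorem Q3_anti (hb : ∀ y z, b 0 y z = 0) (h1 : ∀ y z, a1 z y = a1 y z)
    (h2 : ∀ y z, a2 z y = a2 y z) (h3 : ∀ y z, a3 z y = a3 y z) (h4 : ∀ X y z, b X z y = b X y z)
    (X y z : ℝ) : Q3 a1 a2 a3 b (-X) z y = -Q3 a1 a2 a3 b X y z := by
  rw [Q3_symm h1 h2 h3 h4, Q3_odd hb]

theorem P3_neg (α β γ δ t X : ℝ) : P3 (-α) (-β) (-γ) (-δ) t X = -P3 α β γ δ t X := by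
  unfold P3
  split_ifs <;> ring

/-- the field `mirror` of `Floor` -/
theorem Q3_mirror {H : ℝ} (h1 : ∀ y z, a1 (H - y) (H - z) = -a1 y z)
    (h2 : ∀ y z, a2 (H - y) (H - z) = -a2 y z) (h3 : ∀ y z, a3 (H - y) (H - z) = -a3 y z)
    (h4 : ∀ X y z, b X (H - y) (H - z) = -b X y z) (X y z : ℝ) :
    Q3 a1 a2 a3 b X (H - y) (H - z) = -Q3 a1 a2 a3 b X y z := by
  unfold Q3
  rw [h1, h2, h3, h4 (-X), h4 X, show (H - z - (H - y)) ^ 2 = (z - y) ^ 2 by ring]
  split_ifs <;> rw [P3_neg]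

/-- `P3` does not exceed the node values. -/
theorem P3_abs {K α β γ δ t X : ℝ} (hX : 0 ≤ X) (h1 : t < 1 → |α| ≤ K) (h2 : t < 2 → |β| ≤ K)
    (h3 : t ≤ 3 → |γ| ≤ K) (h4 : 3 < X ^ 2 + t → |δ| ≤ K) (hK : 0 ≤ K) :
    |P3 α β γ δ t X| ≤ K := by
  have conv : ∀ {p q r : ℝ}, |p| ≤ K → |q| ≤ K → 0 ≤ r → r ≤ 1 → |p + (q - p) * r| ≤ K := by
    intro p q r hp hq hr0 hr1
    rw [abs_le] at hp hq ⊢
    constructor <;> nlinarith
  have scal : ∀ {p r : ℝ}, |p| ≤ K → 0 ≤ r → r ≤ 1 → |p * r| ≤ K := by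
    intro p r hp hr0 hr1
    rw [abs_mul, abs_of_nonneg hr0]
    nlinarith [abs_nonneg p]
  have div01 : ∀ {x y : ℝ}, 0 ≤ x → 0 ≤ y → x ≤ y → x / y ≤ 1 := by
    intro x y hx hy hxy
    rcases hy.eq_or_lt with h | h
    · rw [← h, div_zero]
      exact zero_le_one
    · rwa [div_le_one h]
  have sq1 : ∀ {j : ℝ}, X ^ 2 + t ≤ j → X ≤ √(j - t) := fun h => Real.le_sqrt_of_sq_le (by linarith)
  have sq2 : ∀ {j : ℝ}, j ≤ X ^ 2 + t → √(j - t) ≤ X := by
    intro j h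
    rw [Real.sqrt_le_left hX]
    linarith
  have hs1 : √(1 - t) ≤ √(2 - t) := Real.sqrt_le_sqrt (by linarith)
  have hs2 : √(2 - t) ≤ √(3 - t) := Real.sqrt_le_sqrt (by linarith)
  unfold P3
  split_ifs with c1 c2 c3 c4 c5
  · exact h4 c1
  · push Not at c1
    exact scal (h3 (by nlinarith)) (by positivity) (div01 hX (Real.sqrt_nonneg _) (sq1 c1))
  · push Not at c1 c2
    refine conv (h2 c2) (h3 (by linarith)) ?_ ?_
    · exact div_nonneg (by linarith [sq2 c3]) (by linarith)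
    · exact div01 (by linarith [sq2 c3]) (by linarith) (by linarith [sq1 c1])
  · push Not at c3
    exact scal (h2 (by linarith)) (by positivity) (div01 hX (Real.sqrt_nonneg _) (sq1 c3.le))
  · push Not at c3 c4
    refine conv (h1 c4) (h2 (by linarith)) ?_ ?_
    · exact div_nonneg (by linarith [sq2 c5]) (by linarith)
    · exact div01 (by linarith [sq2 c5]) (by linarith) (by linarith [sq1 c3.le])
  · push Not at c4 c5
    exact scal (h1 c4) (by positivity) (div01 hX (Real.sqrt_nonneg _) (sq1 c5.le))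

/-- `Q3` is bounded. -/
theorem Q3_abs {K X y z : ℝ} (h1 : (z - y) ^ 2 < 1 → |a1 y z| ≤ K)
    (h2 : (z - y) ^ 2 < 2 → |a2 y z| ≤ K) (h3 : (z - y) ^ 2 ≤ 3 → |a3 y z| ≤ K)
    (h4 : 3 < X ^ 2 + (z - y) ^ 2 → |b |X| y z| ≤ K) (hK : 0 ≤ K) :
    |Q3 a1 a2 a3 b X y z| ≤ K := by
  unfold Q3
  split_ifs with h
  · rw [abs_neg]
    refine P3_abs (by linarith) h1 h2 h3 (fun h5 => ?_) hK
    rw [abs_of_neg h] at h4
    exact h4 (by linarith)
  · push Not at h
    refine P3_abs h h1 h2 h3 (fun h5 => ?_) hK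
    rw [abs_of_nonneg h] at h4
    exact h4 h5

/-- the pieces on the right -/
theorem P3_pieces (α β γ : ℝ) (δ : ℝ → ℝ) {t X : ℝ} (hX : 0 ≤ X)
    (hl : 1 ≤ X ^ 2 + t) (hu : X ^ 2 + t ≤ 3) :
    (1 ≤ t ∧ ∃ j : ℝ, (j = 2 ∨ j = 3) ∧ X ≤ √(j - t) ∧ (j - t) ≥ 0 ∧
      ∃ c : ℝ, ∀ u, 0 ≤ u → u ≤ √(j - t) → P3 α β γ (δ u) t u = c * u) ∨
    (∃ i j : ℝ, (i = 1 ∨ i = 2) ∧ (j = 2 ∨ j = 3) ∧ 0 < √(i - t) ∧ √(i - t) ≤ X ∧ X ≤ √(j - t) ∧
      0 ≤ i - t ∧ i ≤ j ∧
      ∃ c d : ℝ, ∀ u, √(i - t) ≤ u → u ≤ √(j - t) → P3 α β γ (δ u) t u = c * u + d) := by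
  have sq1 : ∀ {j u : ℝ}, 0 ≤ u → 0 ≤ j - t → u ≤ √(j - t) → u ^ 2 + t ≤ j := by
    intro j u h0 h1 h2
    nlinarith [Real.sq_sqrt h1, Real.sqrt_nonneg (j - t)]
  have sq2 : ∀ {j u : ℝ}, 0 ≤ u → 0 ≤ j - t → √(j - t) ≤ u → j ≤ u ^ 2 + t := by
    intro j u h0 h1 h2
    nlinarith [Real.sq_sqrt h1, Real.sqrt_nonneg (j - t)]
  rcases le_or_gt 2 t with h2 | h2
  · left
    have h3 : 0 ≤ 3 - t := by nlinarith
    refine ⟨by linarith, 3, Or.inr rfl, Real.le_sqrt_of_sq_le (by linarith), h3, γ / √(3 - t),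
      fun u k0 k1 => ?_⟩
    unfold P3
    rw [if_neg (by linarith [sq1 k0 h3 k1]), if_pos h2]
    ring
  rcases le_or_gt 2 (X ^ 2 + t) with c3 | c3
  · right
    have hp : 0 < √(2 - t) := Real.sqrt_pos.2 (by linarith)
    refine ⟨2, 3, Or.inr rfl, Or.inr rfl, hp, ?_, Real.le_sqrt_of_sq_le (by linarith), by linarith,
      by norm_num, (γ - β) / (√(3 - t) - √(2 - t)),
      β - (γ - β) / (√(3 - t) - √(2 - t)) * √(2 - t), fun u k0 k1 => ?_⟩
    · rw [Real.sqrt_le_left hX]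
      linarith
    · have k2 : 0 ≤ u := by linarith
      unfold P3
      rw [if_neg (by linarith [sq1 k2 (by linarith) k1]), if_neg (by linarith),
        if_pos (sq2 k2 (by linarith) k0)]
      ring
  rcases le_or_gt 1 t with h1 | h1
  · left
    refine ⟨h1, 2, Or.inl rfl, Real.le_sqrt_of_sq_le (by linarith), by linarith, β / √(2 - t),
      fun u k0 k1 => ?_⟩
    have hp : 0 < √(2 - t) := Real.sqrt_pos.2 (by linarith)
    have k2 := sq1 k0 (by linarith) k1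
    unfold P3
    rw [if_neg (by linarith), if_neg (by linarith)]
    split_ifs with k3
    · have k4 : u = √(2 - t) := by
        refine le_antisymm k1 ?_
        rw [Real.sqrt_le_left k0]
        linarith
      rw [k4, sub_self, zero_div, mul_zero, add_zero, div_mul_cancel₀ _ hp.ne']
    · ring
  · right
    have hp : 0 < √(1 - t) := Real.sqrt_pos.2 (by linarith)
    have hq : √(1 - t) < √(2 - t) := Real.sqrt_lt_sqrt (by linarith) (by linarith)
    refine ⟨1, 2, Or.inl rfl, Or.inl rfl, hp, ?_, Real.le_sqrt_of_sq_le (by linarith), by linarith,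
      by norm_num, (β - α) / (√(2 - t) - √(1 - t)),
      α - (β - α) / (√(2 - t) - √(1 - t)) * √(1 - t), fun u k0 k1 => ?_⟩
    · rw [Real.sqrt_le_left hX]
      linarith
    · have k2 : 0 ≤ u := by linarith
      have k4 := sq1 k2 (by linarith) k1
      unfold P3
      rw [if_neg (by linarith), if_neg (by linarith)]
      split_ifs with k3 k7 k5
      · have k6 : u = √(2 - t) := by
          refine le_antisymm k1 ?_
          rw [Real.sqrt_le_left k2]
          linarith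
        rw [k6, sub_self, zero_div, mul_zero, add_zero]
        have : √(2 - t) - √(1 - t) ≠ 0 := by
          intro h
          linarith
        field_simp
        ring
      · linarith
      · ring
      · exact absurd (sq2 k2 (by linarith) k0) k5

/-- `Q3` is piecewise affine in the displacement. -/
theorem QPieces_Q3 (hb : ∀ y z, b 0 y z = 0) : QPieces (Q3 a1 a2 a3 b) N3 := by
  -- positive displacements first
  have pos : ∀ X y z : ℝ, 0 ≤ X → 1 ≤ X ^ 2 + (z - y) ^ 2 → X ^ 2 + (z - y) ^ 2 ≤ 3 →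
      ∃ a c : ℝ, a ≤ X ∧ X ≤ c ∧ N3 a y z ∧ N3 c y z ∧
      (∀ u, a ≤ u → u ≤ c → 1 ≤ u ^ 2 + (z - y) ^ 2 ∧ u ^ 2 + (z - y) ^ 2 ≤ 3) ∧
      ∃ α β : ℝ, ∀ u, a ≤ u → u ≤ c → Q3 a1 a2 a3 b u y z = α * u + β := by
    intro X y z hX hl hu
    rcases P3_pieces (a1 y z) (a2 y z) (a3 y z) (fun u => b u y z) hX hl hu with
      ⟨h1, j, hj, h2, h3, c, h4⟩ | ⟨i, j, hi, hj, h1, h2, h3, h5, h6, c, d, h4⟩
    · have h3' : 0 ≤ j - (z - y) ^ 2 := h3
      have hsq := Real.sq_sqrt h3'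
      refine ⟨-√(j - (z - y) ^ 2), √(j - (z - y) ^ 2), ?_, h2, ?_, ?_, ?_, c, 0, ?_⟩
      · linarith [Real.sqrt_nonneg (j - (z - y) ^ 2)]
      · unfold N3
        rw [neg_sq, hsq]
        rcases hj with rfl | rfl
        · right; left; ring
        · right; right; ring
      · unfold N3
        rw [hsq]
        rcases hj with rfl | rfl
        · right; left; ring
        · right; right; ring
      · intro u k1 k2
        have k3 : u ^ 2 ≤ j - (z - y) ^ 2 := by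
          rw [← hsq]
          exact sq_le_sq' k1 k2
        constructor
        · nlinarith
        · rcases hj with rfl | rfl <;> linarith
      · intro u k1 k2
        unfold Q3
        split_ifs with h
        · rw [h4 (-u) (by linarith) (by linarith)]
          ring
        · push Not at h
          rw [h4 u h k2]
          ring
    · have h7 : 0 ≤ j - (z - y) ^ 2 := by linarith
      have hsq := Real.sq_sqrt h7
      have hsq' := Real.sq_sqrt h5
      refine ⟨√(i - (z - y) ^ 2), √(j - (z - y) ^ 2), h2, h3, ?_, ?_, ?_, c, d, ?_⟩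
      · unfold N3
        rw [hsq']
        rcases hi with rfl | rfl
        · left; ring
        · right; left; ring
      · unfold N3
        rw [hsq]
        rcases hj with rfl | rfl
        · right; left; ring
        · right; right; ring
      · intro u k1 k2
        have k3 : u ^ 2 ≤ j - (z - y) ^ 2 := by
          rw [← hsq]
          exact pow_le_pow_left₀ (h1.le.trans k1) k2 2
        have k4 : i - (z - y) ^ 2 ≤ u ^ 2 := by
          rw [← hsq']
          exact pow_le_pow_left₀ h1.le k1 2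
        constructor
        · rcases hi with rfl | rfl <;> linarith
        · rcases hj with rfl | rfl <;> linarith
      · intro u k1 k2
        unfold Q3
        rw [if_neg (by linarith), h4 u k1 k2]
  intro X y z hl hu
  rcases le_total 0 X with hX | hX
  · exact pos X y z hX hl hu
  · obtain ⟨a, c, h1, h2, h3, h4, h5, α, β, h6⟩ := pos (-X) y z (by linarith)
      (by rw [neg_sq]; exact hl) (by rw [neg_sq]; exact hu)
    refine ⟨-c, -a, by linarith, by linarith, ?_, ?_, ?_, α, -β, ?_⟩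
    · unfold N3 at h4 ⊢
      rwa [neg_sq]
    · unfold N3 at h3 ⊢
      rwa [neg_sq]
    · intro u k1 k2
      have := h5 (-u) (by linarith) (by linarith)
      rwa [neg_sq] at this
    · intro u k1 k2
      have e := h6 (-u) (by linarith) (by linarith)
      rw [Q3_odd hb] at e
      linarith

/-- The flux `A(X, Y) · M(y, z)`: interpolating the flux is the same as interpolating the
coefficient. -/
theorem Q3_sep (A1 A2 A3 : ℝ → ℝ) (B : ℝ → ℝ → ℝ) (M : ℝ → ℝ → ℝ) (X y z : ℝ) :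
    Q3 (fun y z => A1 (z - y) * M y z) (fun y z => A2 (z - y) * M y z)
      (fun y z => A3 (z - y) * M y z) (fun X y z => B X (z - y) * M y z) X y z =
    Q3 (fun _ z => A1 z) (fun _ z => A2 z) (fun _ z => A3 z) (fun X _ z => B X z) X 0 (z - y) *
      M y z := by
  unfold Q3 P3
  simp only [sub_zero]
  split_ifs <;> ring

/-- The triangles with two sides of length `√j` and `√k`. -/
def Fam (Q : ℝ → ℝ → ℝ → ℝ) (j k : ℝ) : Prop :=
  ∀ y X1 Y1 X2 Y2 : ℝ, X1 ^ 2 + Y1 ^ 2 = j → X2 ^ 2 + Y2 ^ 2 = k → 0 ≤ X1 * Y2 - Y1 * X2 →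
    1 ≤ (X1 + X2) ^ 2 + (Y1 + Y2) ^ 2 → (X1 + X2) ^ 2 + (Y1 + Y2) ^ 2 ≤ 3 →
    1 / 2 ≤ (X1 * Y2 - Y1 * X2) / (2 * h0) + (Q X1 y (y + Y1) + Q X2 (y + Y1) (y + Y1 + Y2) +
      Q (-(X1 + X2)) (y + Y1 + Y2) y)

/-- reflection -/
theorem Fam.swap {Q : ℝ → ℝ → ℝ → ℝ} (hodd : ∀ X y z, Q (-X) y z = -Q X y z)
    (hanti : ∀ X y z, Q (-X) z y = -Q X y z) {j k : ℝ} (h : Fam Q j k) : Fam Q k j := by
  have hs : ∀ X y z, Q X z y = Q X y z := by
    intro X y z
    have h1 := hanti (-X) y z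
    rw [neg_neg] at h1
    rw [h1, hodd, neg_neg]
  intro y X1 Y1 X2 Y2 h1 h2 h3 h4 h5
  have := h (y + Y1 + Y2) X2 (-Y2) X1 (-Y1) (by rw [neg_sq]; exact h2) (by rw [neg_sq]; exact h1)
    (by linarith) (by linarith [(by ring : (X2 + X1) ^ 2 + (-Y2 + -Y1) ^ 2 =
      (X1 + X2) ^ 2 + (Y1 + Y2) ^ 2)]) (by linarith [(by ring : (X2 + X1) ^ 2 + (-Y2 + -Y1) ^ 2 =
      (X1 + X2) ^ 2 + (Y1 + Y2) ^ 2)])
  rw [show y + Y1 + Y2 + -Y2 = y + Y1 by ring, show y + Y1 + -Y1 = y by ring,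
    hs X2 (y + Y1) (y + Y1 + Y2), hs X1 y (y + Y1), hs (-(X2 + X1)) (y + Y1 + Y2) y,
    show X2 + X1 = X1 + X2 by ring,
    show X2 * -Y1 - -Y2 * X1 = X1 * Y2 - Y1 * X2 by ring] at this
  linarith

/-- **The six families.** -/
theorem tri_of_fam {Q : ℝ → ℝ → ℝ → ℝ} (hP : QPieces Q N3) (hodd : ∀ X y z, Q (-X) y z = -Q X y z)
    (hanti : ∀ X y z, Q (-X) z y = -Q X y z) (h11 : Fam Q 1 1) (h12 : Fam Q 1 2) (h13 : Fam Q 1 3)
    (h22 : Fam Q 2 2) (h23 : Fam Q 2 3) (h33 : Fam Q 3 3) :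
    ∀ p q r : Pt, 0 ≤ cr p q r → 1 ≤ ds p q → 1 ≤ ds q r → 1 ≤ ds p r → ds p q ≤ 3 →
      ds q r ≤ 3 → ds p r ≤ 3 → 1 / 2 ≤ cr p q r / (2 * h0) + fl Q p q r := by
  refine bulk_tri_of_corners hP ?_
  intro p q r h0' h1 h2 h3 h4 h5 h6 n1 n2
  have key : ∀ j k : ℝ, Fam Q j k → (q.1 - p.1) ^ 2 + (q.2 - p.2) ^ 2 = j →
      (r.1 - q.1) ^ 2 + (r.2 - q.2) ^ 2 = k → 1 / 2 ≤ cr p q r / (2 * h0) + fl Q p q r := by
    intro j k hF e1 e2
    have h := hF p.2 (q.1 - p.1) (q.2 - p.2) (r.1 - q.1) (r.2 - q.2) e1 e2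
      (by unfold cr at h0'; linarith) (by unfold ds at h3; linarith) (by unfold ds at h6; linarith)
    rw [show p.2 + (q.2 - p.2) = q.2 by ring, show q.2 + (r.2 - q.2) = r.2 by ring,
      show -(q.1 - p.1 + (r.1 - q.1)) = p.1 - r.1 by ring] at h
    have e3 : cr p q r = (q.1 - p.1) * (r.2 - q.2) - (q.2 - p.2) * (r.1 - q.1) := by
      unfold cr
      ring
    rw [e3]
    exact h
  have s21 := h12.swap hodd hanti
  have s31 := h13.swap hodd hanti
  have s32 := h23.swap hodd hanti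
  rcases n1 with e1 | e1 | e1 <;> rcases n2 with e2 | e2 | e2
  · exact key 1 1 h11 e1 e2
  · exact key 1 2 h12 e1 e2
  · exact key 1 3 h13 e1 e2
  · exact key 2 1 s21 e1 e2
  · exact key 2 2 h22 e1 e2
  · exact key 2 3 h23 e1 e2
  · exact key 3 1 s31 e1 e2
  · exact key 3 2 s32 e1 e2
  · exact key 3 3 h33 e1 e2

end

end Pool.Agent.Strip051.LC
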